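import Pool.Agent.Helper82.CN.Lib

/-!
# Project CN (MP_e12aa9_pr): statements

THEOREM. Let `p ∈ (0, 1 - e⁻²]`, `σ_n² = Var χ(G(n,p))`, `0 ≤ x < 1/2`. The set `{n : σ_n ≥ n^x}` has positive lower density and
lower logarithmic density at least `(1-2x)²/2`.

Idea. `X_k` = number of independent `k`-sets, `M_k = E X_k`. Planting: `E[X_k χ] ≤ M_k (1 + f(n-k))`, `f(n) = E χ(G_n)`, so
`f(n) - f(n-k) - 1 ≤ σ_n √Var X_k / M_k`. With `α₀(n) = a + θ`, `a` an integer: `k = a` gives `f(n) - f(n-a) ≤ 1 + σ_n n^{-θ/2+o(1)}`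
and `k = a-1` gives `f(n) - f(n-a+1) ≤ 1 + n^{-θ/2+o(1)}`. So `f` grows with slope at most `1/(a-1)`, and with slope at most
`1/a` where `σ_n` is small; the average slope is `1/(α₀-1)`, and so a proportion at least `1-θ` of the `n` has large `σ_n`.

Notation. `q = 1-p`, `b = 1/q`, `β = ln b = bb p`, `λ = ln n`.
-/

set_option autoImplicit false

namespace Pool.Agent.Helper82.CN

open Finset Filter

/-! ### definitions -/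

/-- `ln (1/(1-p))` -/
noncomputable def bb (p : ℝ) : ℝ := Real.log (1 / (1 - p))

/-- `α₀(n) = 2 log_b n - 2 log_b log_b n + 2 log_b (e/2) + 1` -/
noncomputable def al (p x : ℝ) : ℝ :=
  2 * Real.log x / bb p - 2 * Real.log (Real.log x / bb p) / bb p +
    2 * (1 - Real.log 2) / bb p + 1

/-- `γ(n) = α₀(n) - 1 - 2/ln b` -/
noncomputable def ga (p x : ℝ) : ℝ := al p x - 1 - 2 / bb p

/-- `ln (n^v / (v! b^(v choose 2)))`, about `ln M_v` -/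
noncomputable def hv (p : ℝ) (n v : ℕ) : ℝ :=
  v * Real.log n - Real.log (v.factorial) - (v.choose 2 : ℕ) * bb p

/-- sizes of the classes of a balanced colouring -/
def sz (n k : ℕ) (i : Fin k) : ℕ := n / k + if (i : ℕ) < n % k then 1 else 0

open Classical in
/-- balanced maps `Fin n → Fin k` (class sizes are prescribed: `sz`) -/
noncomputable def Bal (n k : ℕ) : Finset (Fin n → Fin k) :=
  (univ : Finset (Fin n → Fin k)).filter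
    (fun c => ∀ i : Fin k, ((univ : Finset (Fin n)).filter (fun v => c v = i)).card = sz n k i)

open Classical in
/-- number of pairs which are monochromatic for both maps -/
noncomputable def ov {n k : ℕ} (c c' : Fin n → Fin k) : ℕ :=
  ∑ i : Fin k, ∑ j : Fin k,
    (((univ : Finset (Fin n)).filter (fun v => c v = i ∧ c' v = j)).card.choose 2)

/-- second moment ratio -/
noncomputable def AA (p : ℝ) (n k : ℕ) : ℝ :=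
  (∑ c ∈ Bal n k, ∑ c' ∈ Bal n k, (1 / (1 - p)) ^ ov c c') / ((Bal n k).card : ℝ) ^ 2

/-- weight of a cell with `v` common vertices (`Gc = 1` for `v = 0`) -/
noncomputable def Gc (p : ℝ) (n k : ℕ) (i j : Fin k) (v : ℕ) : ℝ :=
  ((sz n k i).choose v : ℝ) * ((sz n k j).choose v : ℝ) * (v.factorial : ℝ) *
    (1 / (1 - p)) ^ (v.choose 2)

open Classical in
/-- patterns: matrices without entry `1`, row sums at most `sz` -/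
noncomputable def UU (n k : ℕ) : Finset (Fin k → Fin k → ℕ) :=
  (Fintype.piFinset (fun _ : Fin k => Fintype.piFinset (fun _ : Fin k => range (n + 1)))).filter
    (fun u => (∀ i j, u i j ≠ 1) ∧ ∀ i, ∑ j, u i j ≤ sz n k i)

/-- total weight of the cells with `v` common vertices -/
noncomputable def Yv (p : ℝ) (n k v : ℕ) : ℝ :=
  if v ≤ n / k then
    (k : ℝ) ^ 2 * ((n / k + 1).choose v : ℝ) ^ 2 * (v.factorial : ℝ) * (1 / (1 - p)) ^ (v.choose 2)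
  else ((n % k : ℕ) : ℝ) ^ 2 * (v.factorial : ℝ) * (1 / (1 - p)) ^ (v.choose 2)

/-- the term of a vector `m` of multiplicities -/
noncomputable def Tm (p : ℝ) (n k : ℕ) (m : ℕ → ℕ) : ℝ :=
  ((n - ∑ v ∈ Icc 2 (n / k + 1), v * m v).factorial : ℝ) / (n.factorial : ℝ) *
    ∏ v ∈ Icc 2 (n / k + 1), Yv p n k v ^ m v / ((m v).factorial : ℝ)

/-! ### part A: probability -/

/-- BRG (the sum over graphs is the expectation over bits).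

Proof. Group the `ω` by `gr ω = G`: `ω` on non-diagonal `e` is `1` iff `e ∈ G.edgeSet`, the diagonal bits are free (their weights add
up to 1). There are `n choose 2` non-diagonal elements (`Sym2.card_diagSet_compl` or `Sym2.card_subtype_not_diag`). -/
def StBrg : Prop := ∀ (p : ℝ) (n : ℕ) (F : SimpleGraph (Fin n) → ℝ),
  ∑ G : SimpleGraph (Fin n), p ^ G.edgeSet.ncard * (1 - p) ^ (n.choose 2 - G.edgeSet.ncard) * F G =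
    EE p (fun ω : Sym2 (Fin n) → Bool => F (gr ω))

/-- PLA (planting an independent set).

Proof. `Xk = ∑_S 1[S independent]`, `S ∈ powersetCard k univ`. `P(S independent) = q^(k choose 2)` (`k choose 2` bits must vanish).
If `S` is independent then `χ(G) ≤ 1 + χ(G - S)` (one new colour for `S`). `1[S independent]` uses the bits inside `S`, `χ(G - S)`
the bits outside `S`: `EE_indep`; `E χ(G - S) = f(n-k)`: `EE_marg` for `Sym2.map e`, `e : Fin (n-k) → Fin n` injective with range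
the complement of `S` (`gr` of the restricted bits is `(gr ω).comap e`, isomorphic to the induced graph on the complement). -/
def StPla : Prop := ∀ (p : ℝ) (n k : ℕ), 0 ≤ p → p ≤ 1 → 1 ≤ k → k ≤ n →
  EE p (Xk n k) = Mk p n k ∧
  EE p (fun ω : Sym2 (Fin n) → Bool => Xk n k ω * ch (gr ω)) ≤ Mk p n k * (1 + fn p (n - k))

/-- VAR (variance of the number of independent `k`-sets).

Proof. `E Xk² = ∑_{S,T} q^(2C(k,2) - C(|S∩T|,2))`, `Mk² = ∑_{S,T} q^(2C(k,2))`, so the variance is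
`∑_{S,T} q^(2C(k,2)) (b^C(l,2) - 1)`, `l = |S∩T|`, and only `l ≥ 2` counts: at most
`∑_{l≥2} q^(2C(k,2)) b^C(l,2) #{(S,T) : |S∩T| = l}`. `#{(S,T)} = C(n,k) C(k,l) C(n-k,k-l) ≤ C(n,k) C(k,l) C(n-l,k-l)` and
`C(n-l,k-l)/C(n,k) = C(k,l)/C(n,l)` (`Nat.choose_mul`). So each `l` gives at most `Mk² C(k,l)² / (C(n,l) q^C(l,2))`. -/
def StVar : Prop := ∀ (p : ℝ) (n k : ℕ), 0 ≤ p → p < 1 → 1 ≤ k → k ≤ n →
  EE p (fun ω : Sym2 (Fin n) → Bool => (Xk n k ω - Mk p n k) ^ 2) ≤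
    Mk p n k ^ 2 * ∑ l ∈ Icc 2 k, (k.choose l : ℝ) ^ 2 / Mk p n l

/-- COV. Proof. `Mk (f(n) - f(n-k) - 1) ≤ -E[(Xk - Mk)(χ - f(n))] ≤ √Var Xk · σ_n` (PLA, `EE_cs`, VAR). -/
def StCov : Prop := ∀ (p : ℝ) (n k : ℕ), 0 ≤ p → p < 1 → 1 ≤ k → k ≤ n →
  fn p n - fn p (n - k) - 1 ≤ sn p n * √(∑ l ∈ Icc 2 k, (k.choose l : ℝ) ^ 2 / Mk p n l)

/-- LIP. Proof. Restrict `G_{n+1}` to `Fin n` (`Fin.castSucc`, `EE_marg`): `χ(G_n) ≤ χ(G_{n+1}) ≤ χ(G_n) + 1`. With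
`D = χ(G_{n+1}) - χ(G_n) ∈ [0,1]` and `‖F‖ = (E F²)^(1/2)`: `|σ_{n+1} - σ_n| ≤ ‖D - E D‖ ≤ ‖D‖ ≤ 1` (Minkowski from `EE_cs`). -/
def StLip : Prop := ∀ (p : ℝ) (n : ℕ), 0 ≤ p → p ≤ 1 →
  0 ≤ fn p (n + 1) - fn p n ∧ fn p (n + 1) - fn p n ≤ 1 ∧ |sn p (n + 1) - sn p n| ≤ 1

/-- MCG (McDiarmid's inequality, `n` blocks of bits).

Proof. Induction on `n`; `n = 0`: `ι` is empty. Step: `EE_split` with `P i := β i ≠ last` ; `F̄(ω₁) = E_{ω₂} F(ω₁,ω₂)` satisfies the hypothesis for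
the blocks `j < last` (average of the inequality). For fixed `ω₁` the variable `X = F(ω₁,ω₂) - F̄(ω₁)` has mean `0` and `|X| ≤ 1`
(all differences are `≤ 1`), so `e^{sX} ≤ cosh s + X sinh s` (convexity) gives `E e^{sX} ≤ cosh s ≤ e^{s²/2}` (`Real.cosh_le_exp_half_sq`).
(The blocks with value in `Fin n` after removing the last one: use `Fin.castLT` or state the induction with `β : ι → ℕ`, `β i < n`.) -/
def StMcg : Prop := ∀ (p : ℝ) (n : ℕ) (ι : Type) [Fintype ι] [DecidableEq ι] (β : ι → Fin n)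
  (F : (ι → Bool) → ℝ) (s : ℝ), 0 ≤ p → p ≤ 1 →
  (∀ (j : Fin n) (ω ω' : ι → Bool), (∀ i, β i ≠ j → ω i = ω' i) → F ω - F ω' ≤ 1) →
  EE p (fun ω => Real.exp (s * (F ω - EE p F))) ≤ Real.exp (s ^ 2 * n / 2)

open Classical in
/-- MCD (concentration of `χ`).

Proof. MCG with `ι = Sym2 (Fin n)`, block of `s(i,j)` = `max i j` (`Sym2.lift`/`Sym2.sup`); changing the bits of one block changes only
edges at one vertex `j`, so `χ` changes by at most `1` (both values are in `[χ(G-j), χ(G-j)+1]`). Tail: Markov with `s = -t/n`. Variance: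
`x² ≤ (e^{sx} + e^{-sx} - 2)/s²` with `s² = 1/n`: `vn ≤ 2n(e^{1/2} - 1) ≤ 2n`. -/
def StMcd : Prop := ∀ (p : ℝ) (n : ℕ) (t : ℝ), 0 ≤ p → p ≤ 1 → 1 ≤ n → 0 ≤ t →
  vn p n ≤ 2 * n ∧
  EE p (fun ω : Sym2 (Fin n) → Bool => if ch (gr ω) ≤ fn p n - t then (1 : ℝ) else 0) ≤
    Real.exp (-(t ^ 2 / (2 * n)))

open Classical in
/-- FMB (first moment bound).

Proof. If `χ(G) ≤ k ≤ n` there are at least `k!` proper colourings `Fin n → Fin k`: an optimal colouring is surjective onto `χ(G)` colours;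
split classes until there are exactly `k` nonempty classes (possible as `k ≤ n`); permuting the colours of a surjective proper
colouring gives `k!` different ones. So `k! P(χ ≤ k) ≤ E #(proper colourings) = ∑_c q^(#monochromatic pairs of c)`, and
`#monochromatic pairs = (∑ n_i² - n)/2 ≥ (n²/k - n)/2` (Cauchy-Schwarz), `k^n` maps `c`. -/
def StFmb : Prop := ∀ (p : ℝ) (n k : ℕ), 0 ≤ p → p < 1 → 1 ≤ k → k ≤ n →
  EE p (fun ω : Sym2 (Fin n) → Bool => if ch (gr ω) ≤ k then (1 : ℝ) else 0) ≤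
    (k : ℝ) ^ n / (k.factorial : ℝ) * (1 - p) ^ (((n : ℝ) ^ 2 / k - n) / 2)

open Classical in
/-- SCM (second moment bound).

Proof. `Z = ∑_{c ∈ Bal} 1[c proper]`. `P(c proper) = q^m`, `m = ∑_i C(sz i, 2)` for all `c ∈ Bal`; `P(c, c' proper) = q^(2m - ov c c')` (the pairs
monochromatic for `c` or `c'`; `ov` counts those monochromatic for both). `(E Z)² ≤ E Z² P(Z > 0)` (`EE_cs` with `Z` and `1[Z>0]`),
`Z > 0` implies `χ ≤ k`. So `|Bal|² q^(2m) ≤ q^(2m) ∑∑ b^ov · P(χ ≤ k)`, and `Bal` is nonempty (`k ≥ 1`). -/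
def StScm : Prop := ∀ (p : ℝ) (n k : ℕ), 0 ≤ p → p < 1 → 1 ≤ k → k ≤ n →
  1 ≤ AA p n k *
    EE p (fun ω : Sym2 (Fin n) → Bool => if ch (gr ω) ≤ k then (1 : ℝ) else 0)

/-! ### part B: overlaps -/

/-- OVP (from balanced maps to permutations).

Proof. For `c ∈ Bal` the map `π ↦ c ∘ π` from the permutations to `Bal` is surjective (two maps with the same class sizes differ by a
permutation) and all its fibres have the same size (translate by a permutation), hence size `n!/|Bal|`. -/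
def StOvp : Prop := ∀ (n k : ℕ) (c : Fin n → Fin k) (g : (Fin n → Fin k) → ℝ), c ∈ Bal n k →
  (n.factorial : ℝ) * ∑ c' ∈ Bal n k, g c' =
    ((Bal n k).card : ℝ) * ∑ π : Equiv.Perm (Fin n), g (c ∘ π)

/-- OVC (counting). `#{π : π B_x = A_x for all x} ≤ ∏ |B_x|! · (n - ∑|B_x|)!` for pairwise disjoint `B_x`, `|A_x| = |B_x|`.

Proof. If such a `π` exists then the `A_x` are disjoint too; `π` is determined by the bijections `B_x → A_x` and the bijection of the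
complements. (Or induction on the number of sets, via `n!/(n-m)!` ... any way.) -/
def StOvc : Prop := ∀ (n : ℕ) (X : Type) [Fintype X] [DecidableEq X] (B A : X → Finset (Fin n)),
  (∀ x y, x ≠ y → Disjoint (B x) (B y)) →
  (((univ : Finset (Equiv.Perm (Fin n))).filter (fun π : Equiv.Perm (Fin n) =>
    ∀ x, (B x).image (fun v => π v) = A x)).card : ℝ) ≤
    (∏ x, ((B x).card.factorial : ℝ)) * ((n - ∑ x, (B x).card).factorial : ℝ)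

open Classical in
/-- OVU (union bound over the patterns).

Proof. For `π` put `B_ij = {v : c v = i, c (π v) = j}`, `r_ij = |B_ij|`, `u_ij = r_ij` if `r_ij ≥ 2` and `0` otherwise. `u ∈ UU`,
`b^ov = ∏ b^C(u_ij,2)`. Given `u`, the number of `π` with this pattern is at most the sum over the choices of `B_ij ⊆ c⁻¹(i)` (pairwise disjoint),
`A_ij ⊆ c⁻¹(j)` of size `u_ij` of `#{π : π B_ij = A_ij}`, OVC. -/
def StOvu : Prop := ∀ (p : ℝ) (n k : ℕ) (c : Fin n → Fin k), 0 ≤ p → p < 1 → c ∈ Bal n k →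
  ∑ π : Equiv.Perm (Fin n), (1 / (1 - p)) ^ ov c (c ∘ π) ≤
    ∑ u ∈ UU n k, ((n - ∑ i, ∑ j, u i j).factorial : ℝ) * ∏ i, ∏ j, Gc p n k i j (u i j)

/-- OVG (grouping by multiplicities).

Proof. For `u ∈ UU` the entries are `0` or in `[2, t+1]`, `t = n/k` (row sums `≤ t+1`). `m_v(u) = #{(i,j) : u_ij = v}`; `∑ v m_v = ∑ u_ij ≤ n`;
`m_{t+1} ≤ n % k` (such a cell needs `sz i = t+1`, at most one per row). For fixed `m` the `u` with `m(u) = m` are given by disjoint sets of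
cells `S_v`, `|S_v| = m_v`, so `∑_u ∏ Gc ≤ ∏_v ∑_{|S|=m_v} ∏_{(i,j)∈S} Gc(v) ≤ ∏_v (∑_{ij} Gc(v))^{m_v}/m_v!` (elementary symmetric sums) and
`∑_{ij} Gc p n k i j v ≤ Yv p n k v` (`sz ≤ t+1`; for `v = t+1` only cells with `sz i = sz j = t+1` count). There are at most
`(n+1)^t` vectors `m`. -/
def StOvg : Prop := ∀ (p : ℝ) (n k : ℕ) (Y : ℝ), 0 ≤ p → p < 1 → 1 ≤ k → k ≤ n → 0 ≤ Y →
  (∀ m : ℕ → ℕ, ∑ v ∈ Icc 2 (n / k + 1), v * m v ≤ n → m (n / k + 1) ≤ n % k →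
    Tm p n k m ≤ Y) →
  ∑ u ∈ UU n k, ((n - ∑ i, ∑ j, u i j).factorial : ℝ) * ∏ i, ∏ j, Gc p n k i j (u i j) ≤
    ((n : ℝ) + 1) ^ (n / k) * (n.factorial * Y)

/-- OVA. Proof. OVP with `g c' = b^ov(c,c')`, OVU, OVG, average over `c ∈ Bal` (nonempty). -/
def StOva : Prop := ∀ (p : ℝ) (n k : ℕ) (Y : ℝ), 0 ≤ p → p < 1 → 1 ≤ k → k ≤ n → 0 ≤ Y →
  (∀ m : ℕ → ℕ, ∑ v ∈ Icc 2 (n / k + 1), v * m v ≤ n → m (n / k + 1) ≤ n % k →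
    Tm p n k m ≤ Y) →
  AA p n k ≤ ((n : ℝ) + 1) ^ (n / k) * Y

/-! ### part C: asymptotics -/

/-- MKB. Proof. `hv k = k[λ - ln k + 1 - (k-1)β/2] + O(ln k)` (Stirling: `k ln k - k ≤ ln k! ≤ k ln k - k + ln k + 1`). With `k = α₀ - x`, `|x| ≤ K`:
`(β/2)(α₀ - 1) = λ - ln(λ/β) + 1 - ln 2`, so the bracket is `ln(2λ/β) - ln k + βx/2`. `k = 2λ/β - 2 ln(λ/β)/β + O(1)`, so
`|k (ln(2λ/β) - ln k)| ≤ C ln λ` (for `|z| ≤ 1/2`, `|ln(1+z)| ≤ 2|z|`), and `kβx/2 = xλ + O(ln λ)`. -/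
def StMkb : Prop := ∀ (p K δ : ℝ), 0 < p → p < 1 → 0 < K → 0 < δ → ∃ n0 : ℕ, ∀ n k : ℕ, n0 ≤ n →
  |(k : ℝ) - al p n| ≤ K → |hv p n k - (al p n - k) * Real.log n| ≤ δ * Real.log n

/-- HVB (`hv` below `α₀`). First part: `ln v! ≤ v ln v`, `C(v,2) ≤ v²/2`.

Second part, `v = t - j`, `2j ≤ t`: `hv(t-j) = hv(t) + ∑_{i=1}^j [ln(t-i+1) + (t-i)β - λ]`, `tβ ≥ α₀β - Kβ ≥ 2λ - 2 ln(λ/β) - C`, and
`∑_{i≤j} iβ = j(j+1)β/2 ≤ j(t/2+1)β/2 ≤ j(λ/2 + C)` (`tβ ≤ 2λ + C` as `α₀β ≤ 2λ + C`), so the sum is `≥ j(λ/2 - 2 ln λ - C)`. -/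
def StHvb : Prop := ∀ (p K : ℝ), 0 < p → p < 1 → 0 < K → ∃ n0 : ℕ, ∀ n t v : ℕ, n0 ≤ n →
  |(t : ℝ) - al p n| ≤ K → 1 ≤ v → v ≤ t →
  v * (Real.log n - v * bb p / 2 - Real.log v) ≤ hv p n v ∧
  (t ≤ 2 * v →
    hv p n t + ((t : ℝ) - v) * (Real.log n / 2 - 4 * Real.log (Real.log n)) ≤ hv p n v)

/-- TMB (every term of the second moment is at most `exp(n^{1-δ})`); here `p ≤ 1 - e⁻²`, i.e. `c := β/2 ≤ 1`, is used.

Proof. WLOG `ε ≤ 1`. `δ = ε/20`-ish (depending on `c`), `ε'' = ε/2`, `t = n/k` (floor), `r = n % k`, `φ = r/k`, so `n/k = t + φ` and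
`t ≤ γ - ε - φ`, i.e. `α₀ - t ≥ 1 + 1/c + ε + φ` (as `2/β = 1/c`), `t + 1 ≤ α₀ ≤ 2λ/β = λ/c` for large `n`. `s = ∑ v m_v ≤ n`, `σ = s/n`, `z = (t+1)m_{t+1}/n`.
(0) `(n-s)! n^s/n! ≤ e·n·e^{s²/n}` (`n! ≥ (n/e)^n`, `M! ≤ e M (M/e)^M`, `(1-x)^{n-s} ≤ e^{-x(n-s)}`), `m! ≥ (m/e)^m`. Hence
 `ln Tm ≤ 1 + λ + nσ² + ∑_v m_v (L_v - ln m_v + 1)`, `L_v = ln(Yv n^{-v})` (terms with `m_v = 0` are `0`; if `Yv = 0` and `m_v > 0` then `Tm = 0`).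
(1) `2 ≤ v ≤ t`: `L_v ≤ 2λ - hv v + 2 ln C(t+1,v)` and the claim `-hv v + 2 ln C(t+1,v) + v(1 + cφ + cε'') ≤ -(1+δ)λ - 1`. For `2v ≤ t`
 (HVB first part, `C(t+1,v) ≤ (t+1)^v`): the left side is `≤ -v(λ - cv - 3 ln(t+1) - 4)`, and `v(L' - cv)` is concave in `v`, so it is at least its
 minimum over the end points `v = 2` (`2λ - O(ln λ)`) and `v = t/2` (`≥ λ²/(5c)`). For `2v ≥ t`, `j = t - v`: HVB second part, MKB for `t`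
 (`hv t ≥ (1 + 1/c + ε + φ - δ)λ`), `C(t+1,v) = C(t+1,j+1) ≤ (t+1)^{j+1}`, `v ≤ t ≤ λ/c`:
 `≤ -(1 + 1/c + ε + φ - δ)λ - j(λ/2 - 4 ln λ) + 2(j+1) ln(t+1) + λ(1/c + φ + ε'') ≤ -(1 + ε/2 - δ)λ + 2 ln(t+1)`.
 So for `m_v ≥ n^{1-δ}`: `m_v(L_v - ln m_v + 1) ≤ m_v(2λ - (1-δ)λ + 1 - (1+δ)λ - 1 - v(1+cφ+cε'')) = -v m_v (1+cφ+cε'')`. For `m_v < n^{1-δ}` (`m_v ≥ 1`):
 `L_v ≤ 2λ`, so it is `≤ n^{1-δ}(2λ+1) ≤ -v m_v(1+cφ+cε'') + n^{1-δ}(2λ + 1 + 3(t+1))` (`c, φ, ε'' ≤ 1`).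
(2) `v = t+1`: `Yv n^{-v} = r² e^{-hv(t+1)} ≤ n² e^{-hv(t+1)}`, MKB: `L ≤ λ(2 - 1/c - ε - φ + δ)` (`α₀ - t - 1 ≥ 1/c + ε + φ`). For `m ≥ n^{1-δ}`:
 `m(L - ln m + 1) ≤ mλ(1 - 1/c - ε - φ + 3δ)`, the bracket is negative and `λ ≥ c(t+1)`, so `≤ -(t+1)m[(1-c) + cφ + c(ε - 3δ)]`.
 For `m < n^{1-δ}` as before.
(3) Sum, with `w = σ - z`: `ln Tm ≤ n{σ² - w - z(1-c) - cφσ - cε''σ} + (t+2)n^{1-δ}(2λ + 3t + 5) + 1 + λ`, and `{...} = -σ(1-σ) + c(z - φσ) - cε''σ`.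
 Now `z ≤ σ`, `z ≤ (t+1)r/n ≤ φ(1+1/t)` and `φ ≤ 1`. If `σ ≤ φ(1+1/t)`: `z - φσ ≤ σ(1-φ) ≤ σ(1-σ) + σ/t`. If `σ > φ(1+1/t)`:
 `z - φσ ≤ φ(1-σ) + φ/t ≤ σ(1-σ) + σ/t`. As `0 < c ≤ 1` and the right sides are `≥ 0`: `{...} ≤ σ/t - cε''σ ≤ 0` for large `n`. -/
def StTmb : Prop := ∀ (p ε : ℝ), 0 < p → p ≤ 1 - 1 / Real.exp 2 → 0 < ε → ε ≤ 1 →
  ∃ δ : ℝ, 0 < δ ∧ δ < 1 ∧ ∃ n0 : ℕ, ∀ (n k : ℕ) (m : ℕ → ℕ), n0 ≤ n → 1 ≤ k →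
  ga p n - 2 * ε ≤ (n : ℝ) / k → (n : ℝ) / k ≤ ga p n - ε →
  ∑ v ∈ Icc 2 (n / k + 1), v * m v ≤ n → m (n / k + 1) ≤ n % k →
  Tm p n k m ≤ Real.exp ((n : ℝ) ^ (1 - δ))

/-- RHO. Proof. `Mk l ≥ (1/2) e^{hv l}` for `l ≤ k`, `2k² ≤ n` (`C(n,l) ≥ (n^l/l!)(1 - l²/n)`). For `l ≤ k/2` (HVB first part, `C(k,l) ≤ k^l`):
`C(k,l)² e^{-hv l} ≤ exp(-l(λ - cl - 3 ln k))`, `l(L' - cl)` concave in `l`, at least its minimum at `l = 2` (`2λ - O(ln λ)`) and `l = k/2`; so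
`≤ n^{-2+δ/2}`. For `l ≥ k/2`, `j = k-l`: `C(k,j)² e^{-hv l} ≤ k^{2j} e^{-hv k} e^{-j(λ/2 - 4 ln λ)} ≤ e^{-hv k}`. Finally MKB
(`e^{-hv k} ≤ n^{-(α₀-k)+δ/2}`) and at most `k ≤ n^{δ/4}` terms. -/
def StRho : Prop := ∀ (p K δ : ℝ), 0 < p → p < 1 → 0 < K → 0 < δ → ∃ n0 : ℕ, ∀ n k : ℕ, n0 ≤ n →
  |(k : ℝ) - al p n| ≤ K →
  ∑ l ∈ Icc 2 k, (k.choose l : ℝ) ^ 2 / Mk p n l ≤
    (n : ℝ) ^ δ * ((n : ℝ) ^ (-(al p n - k)) + (n : ℝ) ^ (-(2 : ℝ)))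

/-- INC. Proof. COV and RHO (with `δ`, `K = 2`), `k = a` and `k = a - 1`; `√(2 n^δ n^{-θ}) ≤ n^{-θ/2+δ}`. -/
def StInc : Prop := ∀ (p δ : ℝ), 0 < p → p < 1 → 0 < δ → ∃ n0 : ℕ, ∀ n a : ℕ, n0 ≤ n →
  (a : ℝ) ≤ al p n → al p n ≤ a + 1 →
  fn p n - fn p (n - a) - 1 ≤ sn p n * (n : ℝ) ^ (-((al p n - a) / 2) + δ) ∧
  fn p n - fn p (n - (a - 1)) - 1 ≤ sn p n * (n : ℝ) ^ (-((al p n - a + 1) / 2) + δ)

/-- LOW (lower bound for `f`). Proof. FMB with `k = ⌊n/(γ+ε/2)⌋`, `y = n/k` (so `γ + ε/2 ≤ y ≤ γ + ε/2 + o(1)`):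
`ln P(χ ≤ k) ≤ n ln k - k ln k + k - (β/2)(n²/k - n) = n[ln k - (ln k)/y + 1/y - (β/2)(y-1)]`, `ln k = λ - ln y`, and
`(β/2)(y-1) ≥ (β/2)(α₀ - 2 - 2/β + ε/2) = λ - ln(λ/β) - ln 2 - β/2 + βε/4`. So the bracket is
`≤ ln(2λ/(βy)) - (ln k)/y + 1/y + β/2 - βε/4 → -βε/4` (`y ~ 2λ/β`). Hence `P(χ ≤ k) ≤ e^{-nβε/8}` and
`f(n) ≥ (k+1)(1 - e^{-nβε/8}) ≥ n/(γ+ε)`. -/
def StLow : Prop := ∀ (p ε : ℝ), 0 < p → p < 1 → 0 < ε → ∃ n0 : ℕ, ∀ n : ℕ, n0 ≤ n →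
  (n : ℝ) / (ga p n + ε) ≤ fn p n

/-- UPP (upper bound for `f`). Proof. `ε₁ = min(ε,1)/4`; for large `n` there is an integer `k` with `γ - 2ε₁ ≤ n/k ≤ γ - ε₁` (the interval
`[n/(γ-ε₁), n/(γ-2ε₁)]` is long), `t = n/k ≤ λ·C`. TMB, OVA, SCM: `P(χ ≤ k) ≥ 1/AA ≥ (n+1)^{-t} exp(-n^{1-δ}) ≥ exp(-2n^{1-δ})` for large `n`.
MCD with `t = f(n) - k` (if positive): `exp(-2n^{1-δ}) ≤ exp(-(f-k)²/(2n))`, so `f(n) ≤ k + 2n^{1-δ/2} ≤ n/(γ-2ε₁) + 2n^{1-δ/2} ≤ n/(γ-ε)`. -/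
def StUpp : Prop := ∀ (p ε : ℝ), 0 < p → p ≤ 1 - 1 / Real.exp 2 → 0 < ε → ∃ n0 : ℕ, ∀ n : ℕ,
  n0 ≤ n → 0 < ga p n - ε ∧ fn p n ≤ (n : ℝ) / (ga p n - ε)

/-! ### part D: densities -/

open Classical in
/-- WIN (deterministic). Proof. Strong induction on `n ∈ [N, N']` for the same inequality with `n` instead of `N'`: if `n < N + a` use
`f(n) ≤ f(N) + (n - N)`. First alternative: induction hypothesis at `n - a` (`(1+e)/a · a = 1+e`, the count is monotone). Second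
alternative: at `n - (a-1)`, the count increases by `a - 1`. -/
def StWin : Prop := ∀ (f : ℕ → ℝ) (D : Set ℕ) (N N' a : ℕ) (e : ℝ), 2 ≤ a → N ≤ N' → 0 ≤ e →
  (∀ n, f (n + 1) ≤ f n + 1) →
  (∀ n, N + a ≤ n → n ≤ N' → f n ≤ f (n - a) + 1 + e ∨
    (f n ≤ f (n - (a - 1)) + 1 + e ∧ ∀ j, n - (a - 1) < j → j ≤ n → j ∈ D)) →
  f N' ≤ f N + a + (1 + e) / a * ((N' : ℝ) - N) +
    ((1 + e) / (a - 1) - (1 + e) / a) * (((Ioc N N').filter (fun n => n ∈ D)).card : ℝ)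

open Classical in
/-- WTH (window theorem).

Proof. `θ₀ = α₀(N) - a ∈ [ε, 1]`, `N' = ⌊(1+η)N⌋`, `D = {n : N^{θ₀/2-ε} ≤ σ_n}`, `e = ε/(8a)`. For `N + a ≤ n ≤ N'`: `θ(n) = α₀(n) - a ∈ [θ₀, 1]`
(`α₀` is increasing for large arguments). If `f(n) - f(n-a) > 1 + e` then INC with `δ = ε/8` gives `σ_n ≥ e n^{θ(n)/2-δ} ≥ e N^{θ₀/2-δ} ≥ N^{θ₀/2-ε} + a`
(large `N`; `a ≤ 3λ/β`), so `j ∈ D` for `n-a < j ≤ n` (LIP), and INC, MCD (`σ_n² ≤ 2n`): `f(n) - f(n-a+1) - 1 ≤ √(2n) n^{-(1+θ)/2+δ} ≤ 2n^{-3ε/8} ≤ e`.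
So WIN applies. `#D ≥ (1/κ)[f(N') - f(N) - a - (1+e)(N'-N)/a]`, `κ = (1+e)/(a(a-1))`. LOW, UPP with `ε' = ηε/48`, `G = γ(N) = a + θ₀ - 1 - 1/c`
(`c = β/2`), `γ(N') ≤ G + ξ`, `ξ ≤ ln(1+η)/c`: `f(N') - f(N) ≥ N'/(G+ξ+ε') - N/(G-ε')`. With `x = a - G = 1 + 1/c - θ₀`,
`f(N') - f(N) - (N'-N)/a ≥ N'(x-ξ-ε')/(a(G+ξ+ε')) - N(x+ε')/(a(G-ε'))`, which is `(1/a²)[(N'-N)x - N'ξ - (N'+N)ε' - o(N)]` as `G/a → 1`, and
`(1+η)ln(1+η) ≤ η + η²/2`. So it is `≥ (N/a²)[η(1-θ₀) - η²/(2c) - 3ε' - o(1)]`, hence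
`#D ≥ ηN[(1-θ₀) - η/(2c) - 3ε'/η - ε/8 - o(1)](1 - o(1)) ≥ ηN(1-θ₀-ε)` if `η ≤ η₀ = cε/4` (and `η ≤ 1`). (`o(1)` as `N → ∞`, uniformly in `θ₀`.) -/
def StWth : Prop := ∀ (p ε : ℝ), 0 < p → p ≤ 1 - 1 / Real.exp 2 → 0 < ε → ε < 1 →
  ∃ η0 : ℝ, 0 < η0 ∧ ∀ η : ℝ, 0 < η → η < η0 → ∃ N0 : ℕ, ∀ N a : ℕ, N0 ≤ N →
  (a : ℝ) + ε ≤ al p N → al p (⌊(1 + η) * N⌋₊ : ℕ) ≤ a + 1 →
  (1 - (al p N - a) - ε) * (η * N) ≤
    (((Ioc N ⌊(1 + η) * N⌋₊).filter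
      (fun n => (N : ℝ) ^ ((al p N - a) / 2 - ε) ≤ sn p n)).card : ℝ)

open Classical in
/-- DEN (positive lower density). Proof. `α₀(CN) - α₀(N) → 2 log_b C > 1` for `C = b` (`b ≥ 1`; take `C = max(2, b)`-like), so there are an integer `a` and
`N₁ ∈ [N, CN]` with `α₀(N₁) ∈ [a + θ, a + θ + small]`, `θ ∈ (2x, 1)` fixed (`α₀` is slowly increasing, `N₁` = least integer with
`α₀(N₁) ≥ a + θ`). WTH at `N₁` with `ε < (θ-2x)/4`, `ε < 1-θ` and `η` small; `N₁^{θ/2-ε} ≥ (2N₁)^x`. -/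
def StDen : Prop := ∀ (p x : ℝ), 0 < p → p ≤ 1 - 1 / Real.exp 2 → x < 1 / 2 →
  ∃ c C : ℝ, 0 < c ∧ ∃ N0 : ℕ, ∀ N : ℕ, N0 ≤ N →
  c * N ≤ (((Icc N ⌊C * N⌋₊).filter (fun n : ℕ => (n : ℝ) ^ x ≤ sn p n)).card : ℝ)

open Classical in
/-- LGD (lower logarithmic density).

Proof. Fix small `ε₁`, then small `η` (WTH for `ε₁`), `ξ = 2 ln(1+η)/β`. For every integer `a ≥ a₁` let `N_{a,0}` be the least integer with
`α₀(N_{a,0}) ≥ a + 2x + 3ε₁` and `N_{a,i+1} = ⌊(1+η)N_{a,i}⌋`, as long as `α₀(N_{a,i+1}) ≤ a + 1`; `α₀(N_{a,i}) = a + 2x + 3ε₁ + iξ + o(1)` (`a → ∞`), so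
`i < I` with `Iξ = 1 - 2x - 3ε₁ + O(ξ)`. The windows `(N_{a,i}, N_{a,i+1}]` are disjoint, and on each of them the `n` counted in WTH satisfy
`σ_n ≥ N^{x+ε₁/2} ≥ n^x`, so its contribution to `∑ 1/n` is `≥ (1 - 2x - 4ε₁ - iξ - o(1))η/(1+η)`. Sum over `i < I`:
`≥ (η/(ξ(1+η)))((1-2x)²/2 - Cε₁ - Cξ)`, `η/ξ → β/2`. The number of `a` with all windows below `N` is at least `α₀(N) - C ≥ (2/β)λ(1 - o(1))`. -/
def StLgd : Prop := ∀ (p x ε : ℝ), 0 < p → p ≤ 1 - 1 / Real.exp 2 → 0 ≤ x → x < 1 / 2 → 0 < ε →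
  ∃ N0 : ℕ, ∀ N : ℕ, N0 ≤ N →
  ((1 - 2 * x) ^ 2 / 2 - ε) * Real.log N ≤
    ∑ n ∈ (Icc 1 N).filter (fun n : ℕ => (n : ℝ) ^ x ≤ sn p n), 1 / (n : ℝ)

end Pool.Agent.Helper82.CN
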