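import Pool.Agent.Helper82.CN.St

set_option autoImplicit false

namespace Pool.Agent.Helper82.CN

open Finset

theorem tCOV : StPla → StVar → StCov := by
  intro hP hV p n k h0 h1 hk hkn
  have h1' : p ≤ 1 := h1.le
  obtain ⟨hE, hX⟩ := hP p n k h0 h1' hk hkn
  have hv := hV p n k h0 h1 hk hkn
  set S := ∑ l ∈ Icc 2 k, (k.choose l : ℝ) ^ 2 / Mk p n l with hS
  have hM : 0 < Mk p n k := by
    unfold Mk
    have : 0 < n.choose k := Nat.choose_pos hkn
    have h2 : (0 : ℝ) < 1 - p := by linarith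
    positivity
  have hS0 : 0 ≤ S := by
    rw [hS]
    refine Finset.sum_nonneg fun l _ => ?_
    unfold Mk
    have h2 : (0 : ℝ) < 1 - p := by linarith
    positivity
  -- covariance
  have hcov : EE p (fun ω : Sym2 (Fin n) → Bool => (Xk n k ω - Mk p n k) * (ch (gr ω) - fn p n)) =
      EE p (fun ω : Sym2 (Fin n) → Bool => Xk n k ω * ch (gr ω)) - Mk p n k * fn p n := by
    have e1 : (fun ω : Sym2 (Fin n) → Bool => (Xk n k ω - Mk p n k) * (ch (gr ω) - fn p n)) =
        fun ω => ((Xk n k ω * ch (gr ω) - Mk p n k * ch (gr ω)) - Xk n k ω * fn p n) +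
          Mk p n k * fn p n := by
      funext ω; ring
    rw [e1, EE_add, EE_sub, EE_sub, EE_mul_left, EE_mul_right, EE_const]
    have e2 : EE p (fun ω => Xk n k ω) = Mk p n k := hE
    rw [e2]
    have e3 : EE p (fun ω : Sym2 (Fin n) → Bool => ch (gr ω)) = fn p n := rfl
    rw [e3]; ring
  have hcs := EE_cs h0 h1' (fun ω : Sym2 (Fin n) → Bool => Xk n k ω - Mk p n k)
    (fun ω => ch (gr ω) - fn p n)
  rw [hcov] at hcs
  have hvn : EE p (fun ω : Sym2 (Fin n) → Bool => (ch (gr ω) - fn p n) ^ 2) = vn p n := rfl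
  rw [hvn] at hcs
  have hvn0 : 0 ≤ vn p n := EE_nonneg h0 h1' fun ω => sq_nonneg _
  set A := EE p (fun ω : Sym2 (Fin n) → Bool => Xk n k ω * ch (gr ω)) with hA
  -- key
  have hkey : Mk p n k * (fn p n - fn p (n - k) - 1) ≤ Mk p n k * fn p n - A := by
    nlinarith
  by_contra hcon
  push Not at hcon
  have hd : 0 ≤ sn p n * √S := mul_nonneg (Real.sqrt_nonneg _) (Real.sqrt_nonneg _)
  have h3 : Mk p n k * (sn p n * √S) < Mk p n k * fn p n - A :=
    lt_of_lt_of_le (mul_lt_mul_of_pos_left hcon hM) hkey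
  have h4 : (Mk p n k * (sn p n * √S)) ^ 2 < (Mk p n k * fn p n - A) ^ 2 :=
    pow_lt_pow_left₀ h3 (mul_nonneg hM.le hd) (by norm_num)
  have h5 : (Mk p n k * (sn p n * √S)) ^ 2 = Mk p n k ^ 2 * S * vn p n := by
    have h6 : sn p n ^ 2 = vn p n := Real.sq_sqrt hvn0
    have h7 : √S ^ 2 = S := Real.sq_sqrt hS0
    calc _ = Mk p n k ^ 2 * (√S ^ 2) * (sn p n ^ 2) := by ring
      _ = _ := by rw [h6, h7]
  have h8 : (Mk p n k * fn p n - A) ^ 2 = (A - Mk p n k * fn p n) ^ 2 := by ring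
  rw [h5, h8] at h4
  have h9 : (A - Mk p n k * fn p n) ^ 2 ≤ Mk p n k ^ 2 * S * vn p n :=
    hcs.trans (mul_le_mul_of_nonneg_right hv hvn0)
  linarith

end Pool.Agent.Helper82.CN
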