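import Pool.Agent.Helper82.CN.St

set_option autoImplicit false

/-!
# Project CN, module LGW: logarithmic density in all long multiplicative windows

Adapted from helper11's module LGD (Pool/Agent/Helper11/CN/M_LGW.lean)
-/

namespace Pool.Agent.Helper82.CN.LGW

open Finset Filter Pool.Agent.Helper82.CN

/-- primitive of the weight on `[0,1]` -/
private noncomputable def ph_LGW (κ L θ : ℝ) : ℝ :=
  ((1 - κ - L) ^ 2 - (max 0 (1 - κ - max θ L)) ^ 2) / 2

/-- primitive of the periodic weight -/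
private noncomputable def Ph_LGW (κ L t : ℝ) : ℝ :=
  (⌊t⌋ : ℝ) * ((1 - κ - L) ^ 2 / 2) + ph_LGW κ L (Int.fract t)

private lemma ph_nonneg_LGW (κ L θ : ℝ) (h : 0 ≤ 1 - κ - L) : 0 ≤ ph_LGW κ L θ := by
  unfold ph_LGW
  have h1 : max 0 (1 - κ - max θ L) ≤ 1 - κ - L := by
    apply max_le h
    have := le_max_right θ L
    linarith
  have h0 : 0 ≤ max 0 (1 - κ - max θ L) := le_max_left _ _
  nlinarith

private lemma Ph_lower_LGW (κ L t : ℝ) (h : 0 ≤ 1 - κ - L) :
    (t - 1) * ((1 - κ - L) ^ 2 / 2) ≤ Ph_LGW κ L t := by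
  unfold Ph_LGW
  have h1 := ph_nonneg_LGW κ L (Int.fract t) h
  have h2 : t - 1 ≤ (⌊t⌋ : ℝ) := by
    have := Int.lt_floor_add_one t
    linarith
  have h3 : 0 ≤ (1 - κ - L) ^ 2 / 2 := by positivity
  nlinarith

private lemma Ph_step_LGW (e ξ y t t' V : ℝ) (he : 0 < e) (hξ : 0 < ξ) (_hξ1 : ξ < 1)
    (hy : 0 ≤ y) (hL : (y + ξ) + (e + ξ) ≤ 1) (h1 : t ≤ t') (h2 : t' ≤ t + ξ) (hV : 0 ≤ V)
    (hV1 : y ≤ Int.fract t → Int.fract t + ξ ≤ 1 → 1 - Int.fract t - e ≤ V) :
    Ph_LGW (e + ξ) (y + ξ) t' - Ph_LGW (e + ξ) (y + ξ) t ≤ ξ * V := by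
  have hfr0 : 0 ≤ Int.fract t := Int.fract_nonneg t
  have hfr1 : Int.fract t < 1 := Int.fract_lt_one t
  have ht : t = ⌊t⌋ + Int.fract t := (Int.floor_add_fract t).symm
  set a : ℤ := ⌊t⌋ with ha
  set θ : ℝ := Int.fract t with hθ
  have hξV : 0 ≤ ξ * V := mul_nonneg hξ.le hV
  by_cases h : t' < a + 1
  · have hfl : ⌊t'⌋ = a := by
      rw [Int.floor_eq_iff]
      constructor
      · linarith
      · exact h
    have hfr : Int.fract t' = t' - a := by
      unfold Int.fract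
      rw [hfl]
    unfold Ph_LGW
    rw [hfl, hfr, ← ha, ← hθ]
    unfold ph_LGW
    set θ' : ℝ := t' - a with hθ'
    have hθθ' : θ ≤ θ' := by linarith
    have hθθ'2 : θ' ≤ θ + ξ := by linarith
    set m : ℝ := max 0 (1 - (e + ξ) - max θ (y + ξ)) with hm
    set m' : ℝ := max 0 (1 - (e + ξ) - max θ' (y + ξ)) with hm'
    have hm0 : 0 ≤ m := le_max_left _ _
    have hm'0 : 0 ≤ m' := le_max_left _ _
    have hmm : m' ≤ m := by
      apply max_le_max le_rfl
      have : max θ (y + ξ) ≤ max θ' (y + ξ) := max_le_max hθθ' le_rfl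
      linarith
    by_cases hmz : m ≤ 0
    · have : m = 0 := le_antisymm hmz hm0
      have h' : m' = 0 := by linarith
      rw [this, h']
      nlinarith
    · push Not at hmz
      have hmeq : m = 1 - (e + ξ) - max θ (y + ξ) := by
        rcases le_total 0 (1 - (e + ξ) - max θ (y + ξ)) with h3 | h3
        · exact max_eq_right h3
        · exfalso
          have : m = 0 := max_eq_left h3
          linarith
      have hmaxθ : θ ≤ max θ (y + ξ) := le_max_left _ _
      have hmaxy : y + ξ ≤ max θ (y + ξ) := le_max_right _ _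
      by_cases hθL : θ' ≤ y + ξ
      · have e1 : max θ' (y + ξ) = y + ξ := max_eq_right hθL
        have e2 : max θ (y + ξ) = y + ξ := max_eq_right (by linarith)
        have e3 : m = m' := by rw [hm, hm', e1, e2]
        rw [e3]
        linarith
      · push Not at hθL
        have hVb : 1 - θ - e ≤ V := hV1 (by linarith) (by linarith)
        have hmV : m ≤ V := by linarith
        have e1 : max θ' (y + ξ) = θ' := max_eq_left hθL.le
        have hm'ge : 1 - (e + ξ) - θ' ≤ m' := by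
          rw [hm', e1]
          exact le_max_right _ _
        have hdiff : m - m' ≤ ξ := by linarith
        have h5 : (m - m') * (m + m') ≤ ξ * (2 * V) := by
          apply mul_le_mul hdiff (by linarith) (by linarith) hξ.le
        nlinarith
  · push Not at h
    have hθge : 1 - ξ ≤ θ := by linarith
    have hfl : ⌊t'⌋ = a + 1 := by
      rw [Int.floor_eq_iff]
      push_cast
      constructor
      · linarith
      · linarith
    have hfr : Int.fract t' = t' - a - 1 := by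
      unfold Int.fract
      rw [hfl]
      push_cast
      ring
    unfold Ph_LGW
    rw [hfl, hfr, ← ha, ← hθ]
    unfold ph_LGW
    have e1 : max (t' - a - 1) (y + ξ) = y + ξ := max_eq_right (by linarith)
    have e2 : max 0 (1 - (e + ξ) - (y + ξ)) = 1 - (e + ξ) - (y + ξ) := max_eq_right (by linarith)
    have e3 : max 0 (1 - (e + ξ) - max θ (y + ξ)) = 0 := by
      apply max_eq_left
      have := le_max_left θ (y + ξ)
      linarith
    rw [e1, e2, e3]
    push_cast
    nlinarith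

private lemma al_step_LGW (p η y y' : ℝ) (hb : 0 < bb p) (hη : 0 < η) (hy : 0 < y)
    (hly : 1 ≤ Real.log y) (h1 : y ≤ y') (h2 : y' ≤ (1 + η) * y) :
    al p y ≤ al p y' ∧ al p y' ≤ al p y + 2 * Real.log (1 + η) / bb p := by
  have hy' : 0 < y' := lt_of_lt_of_le hy h1
  have hl1 : Real.log y ≤ Real.log y' := Real.log_le_log hy h1
  have hl2 : Real.log y' ≤ Real.log (1 + η) + Real.log y := by
    rw [← Real.log_mul (by linarith) hy.ne']
    exact Real.log_le_log hy' h2
  have hu : 0 < Real.log y := by linarith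
  have hu' : 0 < Real.log y' := by linarith
  have hd1 : Real.log (Real.log y / bb p) ≤ Real.log (Real.log y' / bb p) :=
    Real.log_le_log (div_pos hu hb) (div_le_div_of_nonneg_right hl1 hb.le)
  have hd2 : Real.log (Real.log y' / bb p) - Real.log (Real.log y / bb p) ≤
      Real.log y' - Real.log y := by
    rw [Real.log_div hu'.ne' hb.ne', Real.log_div hu.ne' hb.ne']
    have h3 : Real.log (Real.log y') - Real.log (Real.log y) =
        Real.log (Real.log y' / Real.log y) := (Real.log_div hu'.ne' hu.ne').symm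
    have h4 : Real.log (Real.log y' / Real.log y) ≤ Real.log y' / Real.log y - 1 :=
      Real.log_le_sub_one_of_pos (div_pos hu' hu)
    have h5 : Real.log y' / Real.log y - 1 = (Real.log y' - Real.log y) / Real.log y := by
      field_simp
    have h6 : (Real.log y' - Real.log y) / Real.log y ≤ Real.log y' - Real.log y := by
      apply div_le_self (by linarith) hly
    linarith
  have key : al p y' - al p y = (2 / bb p) * ((Real.log y' - Real.log y) -
      (Real.log (Real.log y' / bb p) - Real.log (Real.log y / bb p))) := by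
    unfold al
    field_simp
    ring
  have hc : 0 < 2 / bb p := by positivity
  constructor
  · have : 0 ≤ al p y' - al p y := by
      rw [key]
      exact mul_nonneg hc.le (by linarith)
    linarith
  · have : al p y' - al p y ≤ (2 / bb p) * Real.log (1 + η) := by
      rw [key]
      exact mul_le_mul_of_nonneg_left (by linarith) hc.le
    have h7 : 2 * Real.log (1 + η) / bb p = (2 / bb p) * Real.log (1 + η) := by ring
    linarith

private lemma al_lower_LGW (p d y : ℝ) (hb : 0 < bb p) (hd : 0 < d) (hy : 0 < Real.log y) :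
    (2 / bb p) * (1 - d) * Real.log y +
      ((2 / bb p) * (2 + Real.log (d * bb p) - Real.log 2) + 1) ≤ al p y := by
  have hz : 0 < Real.log y / bb p := div_pos hy hb
  have hc : 0 < d * bb p := mul_pos hd hb
  have h1 : Real.log (d * bb p * (Real.log y / bb p)) ≤ d * bb p * (Real.log y / bb p) - 1 :=
    Real.log_le_sub_one_of_pos (mul_pos hc hz)
  rw [Real.log_mul hc.ne' hz.ne'] at h1
  have h2 : d * bb p * (Real.log y / bb p) = d * Real.log y := by
    field_simp
  rw [h2] at h1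
  have key : al p y - ((2 / bb p) * (1 - d) * Real.log y +
      ((2 / bb p) * (2 + Real.log (d * bb p) - Real.log 2) + 1)) =
      (2 / bb p) * (d * Real.log y - 1 - Real.log (d * bb p) -
        Real.log (Real.log y / bb p)) := by
    unfold al
    field_simp
    ring
  have h3 : 0 ≤ (2 / bb p) * (d * Real.log y - 1 - Real.log (d * bb p) -
        Real.log (Real.log y / bb p)) := by
    apply mul_nonneg (by positivity)
    linarith
  linarith

open Classical in
/-- one window -/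
private lemma window_LGW (p x e η : ℝ) (N1 m : ℕ) (hb : 0 < bb p) (hx0 : 0 ≤ x) (he : 0 < e)
    (hη : 0 < η) (hη1 : η ≤ 1)
    (hN1 : ∀ N a : ℕ, N1 ≤ N → (a : ℝ) + e ≤ al p N → al p (⌊(1 + η) * N⌋₊ : ℕ) ≤ a + 1 →
      (1 - (al p N - a) - e) * (η * N) ≤
        (((Ioc N ⌊(1 + η) * N⌋₊).filter
          (fun n => (N : ℝ) ^ ((al p N - a) / 2 - e) ≤ sn p n)).card : ℝ))
    (hm1 : N1 ≤ m) (hm3 : 1 ≤ Real.log m) (hx1 : x ≤ 1)
    (hm2 : (2 : ℝ) ≤ (m : ℝ) ^ e) (hal : 0 ≤ al p m)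
    (hfr1 : 2 * x + 4 * e ≤ Int.fract (al p m))
    (hfr2 : Int.fract (al p m) + 2 * Real.log (1 + η) / bb p ≤ 1) :
    (1 - Int.fract (al p m) - e) * (η / (1 + η)) ≤
      ∑ n ∈ (Ioc m ⌊(1 + η) * m⌋₊).filter (fun n : ℕ => (n : ℝ) ^ x ≤ sn p n), 1 / (n : ℝ) := by
  have hm0 : 0 < (m : ℝ) := by
    rcases Nat.eq_zero_or_pos m with h | h
    · exfalso
      rw [h] at hm3
      simp at hm3
      linarith
    · exact_mod_cast h
  have hm1' : (1 : ℝ) ≤ m := by
    have : 1 ≤ m := by exact_mod_cast hm0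
    exact_mod_cast this
  set t : ℝ := al p m with ht
  have hfl0 : 0 ≤ ⌊t⌋ := Int.floor_nonneg.2 hal
  set a : ℕ := ⌊t⌋.toNat with ha
  have haz : ((a : ℕ) : ℤ) = ⌊t⌋ := Int.toNat_of_nonneg hfl0
  have har : (a : ℝ) = (⌊t⌋ : ℝ) := by
    have : ((a : ℤ) : ℝ) = (⌊t⌋ : ℝ) := by rw [haz]
    simpa using this
  have htf : t - a = Int.fract t := by
    rw [har]
    rfl
  have hmul : (m : ℝ) ≤ (1 + η) * m := by nlinarith
  have hm'1 : m ≤ ⌊(1 + η) * (m : ℝ)⌋₊ := Nat.le_floor hmul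
  have hm'2 : ((⌊(1 + η) * (m : ℝ)⌋₊ : ℕ) : ℝ) ≤ (1 + η) * m := Nat.floor_le (by positivity)
  have hstep := al_step_LGW p η (m : ℝ) ((⌊(1 + η) * (m : ℝ)⌋₊ : ℕ) : ℝ) hb hη hm0 hm3
    (by exact_mod_cast hm'1) hm'2
  have h1 := hN1 m a hm1 (by linarith) (by linarith [hstep.2])
  rw [← ht, htf] at h1
  have hsub : ((Ioc m ⌊(1 + η) * (m : ℝ)⌋₊).filter
      (fun n => (m : ℝ) ^ (Int.fract t / 2 - e) ≤ sn p n)) ⊆
      ((Ioc m ⌊(1 + η) * (m : ℝ)⌋₊).filter (fun n : ℕ => (n : ℝ) ^ x ≤ sn p n)) := by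
    intro n hn
    rw [mem_filter] at hn ⊢
    refine ⟨hn.1, le_trans ?_ hn.2⟩
    have hn2 : (n : ℝ) ≤ (1 + η) * m := by
      have : n ≤ ⌊(1 + η) * (m : ℝ)⌋₊ := (mem_Ioc.1 hn.1).2
      have : (n : ℝ) ≤ ((⌊(1 + η) * (m : ℝ)⌋₊ : ℕ) : ℝ) := by exact_mod_cast this
      linarith
    have hn3 : (n : ℝ) ≤ 2 * m := by nlinarith
    calc (n : ℝ) ^ x ≤ (2 * m) ^ x := Real.rpow_le_rpow (by positivity) hn3 hx0
      _ = 2 ^ x * (m : ℝ) ^ x := Real.mul_rpow (by norm_num) hm0.le
      _ ≤ (m : ℝ) ^ e * (m : ℝ) ^ x := by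
        apply mul_le_mul_of_nonneg_right _ (by positivity)
        calc (2 : ℝ) ^ x ≤ 2 ^ (1 : ℝ) := Real.rpow_le_rpow_of_exponent_le (by norm_num) hx1
          _ = 2 := Real.rpow_one 2
          _ ≤ _ := hm2
      _ = (m : ℝ) ^ (e + x) := (Real.rpow_add hm0 e x).symm
      _ ≤ (m : ℝ) ^ (Int.fract t / 2 - e) :=
        Real.rpow_le_rpow_of_exponent_le hm1' (by linarith)
  have hcard : (((Ioc m ⌊(1 + η) * (m : ℝ)⌋₊).filter
      (fun n => (m : ℝ) ^ (Int.fract t / 2 - e) ≤ sn p n)).card : ℝ) ≤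
      (((Ioc m ⌊(1 + η) * (m : ℝ)⌋₊).filter (fun n : ℕ => (n : ℝ) ^ x ≤ sn p n)).card : ℝ) := by
    exact_mod_cast card_le_card hsub
  have hsum : (((Ioc m ⌊(1 + η) * (m : ℝ)⌋₊).filter
      (fun n : ℕ => (n : ℝ) ^ x ≤ sn p n)).card : ℝ) * (1 / ((1 + η) * m)) ≤
      ∑ n ∈ (Ioc m ⌊(1 + η) * (m : ℝ)⌋₊).filter (fun n : ℕ => (n : ℝ) ^ x ≤ sn p n),
        1 / (n : ℝ) := by
    rw [← nsmul_eq_mul]
    apply card_nsmul_le_sum
    intro n hn
    rw [mem_filter, mem_Ioc] at hn
    have hn0 : 0 < (n : ℝ) := by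
      have : m < n := hn.1.1
      have : (m : ℝ) < n := by exact_mod_cast this
      linarith
    have hn2 : (n : ℝ) ≤ (1 + η) * m := by
      have : (n : ℝ) ≤ ((⌊(1 + η) * (m : ℝ)⌋₊ : ℕ) : ℝ) := by exact_mod_cast hn.1.2
      linarith
    exact one_div_le_one_div_of_le hn0 hn2
  refine le_trans ?_ hsum
  have h5 : (1 - Int.fract t - e) * (η / (1 + η)) =
      (1 - Int.fract t - e) * (η * m) * (1 / ((1 + η) * m)) := by
    field_simp
  rw [h5]
  apply mul_le_mul_of_nonneg_right (le_trans h1 hcard) (by positivity)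

/-- the sequence of the window borders -/
private noncomputable def sq_LGW (η : ℝ) (M0 : ℕ) : ℕ → ℕ
  | 0 => M0
  | i + 1 => ⌊(1 + η) * (sq_LGW η M0 i : ℝ)⌋₊

private lemma sq_ge_LGW (η : ℝ) (M0 : ℕ) (hη : 0 < η) (h0 : 1 ≤ η * M0) :
    ∀ i, M0 ≤ sq_LGW η M0 i ∧ sq_LGW η M0 i + 1 ≤ sq_LGW η M0 (i + 1) := by
  have hstep : ∀ i, M0 ≤ sq_LGW η M0 i → sq_LGW η M0 i + 1 ≤ sq_LGW η M0 (i + 1) := by
    intro i hi
    show sq_LGW η M0 i + 1 ≤ ⌊(1 + η) * (sq_LGW η M0 i : ℝ)⌋₊
    apply Nat.le_floor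
    push_cast
    have : (M0 : ℝ) ≤ sq_LGW η M0 i := by exact_mod_cast hi
    nlinarith
  intro i
  induction i with
  | zero => exact ⟨le_rfl, hstep 0 le_rfl⟩
  | succ i ih =>
    have h : M0 ≤ sq_LGW η M0 (i + 1) := by
      have := ih.1
      have := ih.2
      omega
    exact ⟨h, hstep (i + 1) h⟩

private lemma sq_find_LGW (η : ℝ) (M0 : ℕ) (hη : 0 < η) (h0 : 1 ≤ η * M0) (N : ℕ) (hN : M0 ≤ N) :
    ∃ i, sq_LGW η M0 i ≤ N ∧ N < sq_LGW η M0 (i + 1) := by
  have hgrow : ∀ i, i ≤ sq_LGW η M0 i := by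
    intro i
    induction i with
    | zero => exact Nat.zero_le _
    | succ i ih =>
      have := (sq_ge_LGW η M0 hη h0 i).2
      omega
  have hex : ∃ i, N < sq_LGW η M0 i := ⟨N + 1, by
    have := hgrow (N + 1)
    omega⟩
  classical
  have h1 := Nat.find_spec hex
  have h2 : Nat.find hex ≠ 0 := by
    intro h
    rw [h] at h1
    change N < M0 at h1
    omega
  obtain ⟨j, hj⟩ := Nat.exists_eq_succ_of_ne_zero h2
  refine ⟨j, ?_, ?_⟩
  · have h3 := Nat.find_min hex (m := j) (by omega)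
    omega
  · rw [hj] at h1
    exact h1


private lemma Ph_upper_LGW (κ L t : ℝ) : Ph_LGW κ L t ≤ (t + 1) * ((1 - κ - L) ^ 2 / 2) := by
  unfold Ph_LGW ph_LGW
  have h2 : (⌊t⌋ : ℝ) ≤ t := Int.floor_le t
  have h3 : 0 ≤ (1 - κ - L) ^ 2 / 2 := by positivity
  have h4 : 0 ≤ (max 0 (1 - κ - max (Int.fract t) L)) ^ 2 := by positivity
  nlinarith

/-- growth of `al` between two points -/
private lemma al_diff_LGW (p e y y' : ℝ) (hb : 0 < bb p) (he : 0 < e) (hy : 0 < y)
    (hly : 1 / e ≤ Real.log y) (h1 : y ≤ y') :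
    (2 / bb p) * (1 - e) * (Real.log y' - Real.log y) ≤ al p y' - al p y := by
  have hy' : 0 < y' := lt_of_lt_of_le hy h1
  have hl1 : Real.log y ≤ Real.log y' := Real.log_le_log hy h1
  have he' : 0 < 1 / e := by positivity
  have hu : 0 < Real.log y := by linarith
  have hu' : 0 < Real.log y' := by linarith
  have hd2 : Real.log (Real.log y' / bb p) - Real.log (Real.log y / bb p) ≤
      e * (Real.log y' - Real.log y) := by
    rw [Real.log_div hu'.ne' hb.ne', Real.log_div hu.ne' hb.ne']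
    have h3 : Real.log (Real.log y') - Real.log (Real.log y) =
        Real.log (Real.log y' / Real.log y) := (Real.log_div hu'.ne' hu.ne').symm
    have h4 : Real.log (Real.log y' / Real.log y) ≤ Real.log y' / Real.log y - 1 :=
      Real.log_le_sub_one_of_pos (div_pos hu' hu)
    have h5 : Real.log y' / Real.log y - 1 = (Real.log y' - Real.log y) / Real.log y := by
      field_simp
    have h6 : (Real.log y' - Real.log y) / Real.log y ≤ e * (Real.log y' - Real.log y) := by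
      rw [div_le_iff₀ hu]
      have h7 : 1 ≤ e * Real.log y := by
        rw [div_le_iff₀ he] at hly
        linarith
      nlinarith
    linarith
  have key : al p y' - al p y = (2 / bb p) * ((Real.log y' - Real.log y) -
      (Real.log (Real.log y' / bb p) - Real.log (Real.log y / bb p))) := by
    unfold al
    field_simp
    ring
  have hc : 0 < 2 / bb p := by positivity
  rw [key, mul_assoc]
  apply mul_le_mul_of_nonneg_left _ hc.le
  linarith

open Classical in
/-- LGW (logarithmic density in all long windows) -/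
def StLgw : Prop := ∀ (p x ε : ℝ), 0 < p → p ≤ 1 - 1 / Real.exp 2 → 0 ≤ x → x < 1 / 2 → 0 < ε →
  ∃ (C₀ : ℝ) (N₀ : ℕ), ∀ (C : ℝ) (N : ℕ), C₀ ≤ C → N₀ ≤ N →
  ((1 - 2 * x) ^ 2 / 2 - ε) * Real.log C ≤
    ∑ n ∈ (Ioc N ⌊C * N⌋₊).filter (fun n : ℕ => (n : ℝ) ^ x ≤ sn p n), 1 / (n : ℝ)

theorem tLGW : StWth → StLgw := by
  classical
  intro hW p x ε hp hp2 hx0 hx hε
  have hexp : 0 < 1 / Real.exp 2 := by positivity
  have hp1 : p < 1 := by linarith
  have hβ : 0 < bb p := by
    unfold bb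
    apply Real.log_pos
    rw [lt_div_iff₀ (by linarith)]
    linarith
  have hβ2 : bb p ≤ 2 := by
    unfold bb
    have h1 : 1 / (1 - p) ≤ Real.exp 2 := by
      rw [div_le_iff₀ (by linarith)]
      have h2 : 1 / Real.exp 2 ≤ 1 - p := by linarith
      have h3 : Real.exp 2 * (1 / Real.exp 2) = 1 := by
        field_simp
      nlinarith [Real.exp_pos 2]
    calc Real.log (1 / (1 - p)) ≤ Real.log (Real.exp 2) :=
          Real.log_le_log (by
            apply one_div_pos.2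
            linarith) h1
      _ = 2 := Real.log_exp 2
  -- choice of the small parameters
  obtain ⟨e, he0, he1, he2, he3⟩ : ∃ e : ℝ, 0 < e ∧ e ≤ 1 / 16 ∧ 14 * e ≤ 1 - 2 * x ∧ 16 * e ≤ ε := by
    refine ⟨min (1 / 16) (min ((1 - 2 * x) / 14) (ε / 16)), ?_, ?_, ?_, ?_⟩
    · apply lt_min (by norm_num)
      apply lt_min
      · linarith
      · linarith
    · exact min_le_left _ _
    · have h1 : min (1 / 16) (min ((1 - 2 * x) / 14) (ε / 16)) ≤ (1 - 2 * x) / 14 :=
        le_trans (min_le_right _ _) (min_le_left _ _)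
      linarith
    · have h1 : min (1 / 16) (min ((1 - 2 * x) / 14) (ε / 16)) ≤ ε / 16 :=
        le_trans (min_le_right _ _) (min_le_right _ _)
      linarith
  obtain ⟨η0, hη0, hW1⟩ := hW p e hp hp2 he0 (by linarith)
  obtain ⟨η, hη, hηlt, hη2, hηe⟩ : ∃ η : ℝ, 0 < η ∧ η < η0 ∧ η ≤ e * bb p / 2 ∧ η ≤ e := by
    refine ⟨min (η0 / 2) (min (e * bb p / 2) e), ?_, ?_, ?_, ?_⟩
    · apply lt_min (by linarith)
      apply lt_min (by positivity) he0
    · exact lt_of_le_of_lt (min_le_left _ _) (by linarith)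
    · exact le_trans (min_le_right _ _) (min_le_left _ _)
    · exact le_trans (min_le_right _ _) (min_le_right _ _)
  obtain ⟨N1, hN1⟩ := hW1 η hη hηlt
  have hη1 : η ≤ 1 := by linarith
  set ξ : ℝ := 2 * Real.log (1 + η) / bb p with hξdef
  have hlogη : 0 < Real.log (1 + η) := Real.log_pos (by linarith)
  have hlogη2 : Real.log (1 + η) ≤ η := by
    have := Real.log_le_sub_one_of_pos (show 0 < 1 + η by linarith)
    linarith
  have hξ0 : 0 < ξ := by positivity
  have hξη : ξ * bb p ≤ 2 * η := by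
    rw [hξdef, div_mul_cancel₀ _ hβ.ne']
    linarith
  have hξe : ξ ≤ e := by
    by_contra hcon
    push Not at hcon
    nlinarith
  set y : ℝ := 2 * x + 4 * e with hy
  set A : ℝ := (1 - (e + ξ) - (y + ξ)) ^ 2 / 2 with hA
  have hs : 0 < 1 - (e + ξ) - (y + ξ) := by
    rw [hy]
    linarith
  have hs1 : 1 - (e + ξ) - (y + ξ) ≤ 1 := by
    rw [hy]
    linarith
  have hA0 : 0 < A := by positivity
  have hA1 : A ≤ 1 / 2 := by
    rw [hA]
    nlinarith
  have hA2 : (1 - 2 * x) ^ 2 / 2 - 7 * e ≤ A := by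
    have h1 : 1 - 2 * x - 7 * e ≤ 1 - (e + ξ) - (y + ξ) := by
      rw [hy]
      linarith
    have h2 : 0 ≤ 1 - 2 * x - 7 * e := by linarith
    have h3 : (1 - 2 * x - 7 * e) ^ 2 ≤ (1 - (e + ξ) - (y + ξ)) ^ 2 :=
      pow_le_pow_left₀ h2 h1 2
    rw [hA]
    nlinarith
  -- choice of the first border
  set C1 : ℝ := (2 / bb p) * (2 + Real.log (e * bb p) - Real.log 2) + 1 with hC1
  have hlogtop : Tendsto (fun n : ℕ => Real.log (n : ℝ)) atTop atTop :=
    Real.tendsto_log_atTop.comp tendsto_natCast_atTop_atTop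
  have hc2 : 0 < (2 / bb p) * (1 - e) := by
    apply mul_pos (by positivity)
    linarith
  have ev1 : ∀ᶠ n : ℕ in atTop, 1 ≤ Real.log (n : ℝ) := hlogtop.eventually_ge_atTop 1
  have ev2 : ∀ᶠ n : ℕ in atTop, -C1 / ((2 / bb p) * (1 - e)) ≤ Real.log (n : ℝ) :=
    hlogtop.eventually_ge_atTop _
  have ev3 : ∀ᶠ n : ℕ in atTop, (2 : ℝ) ≤ (n : ℝ) ^ e := by
    have h1 : Tendsto (fun n : ℕ => (n : ℝ) ^ e) atTop atTop :=
      (tendsto_rpow_atTop he0).comp tendsto_natCast_atTop_atTop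
    exact h1.eventually_ge_atTop 2
  have ev4 : ∀ᶠ n : ℕ in atTop, 1 / η ≤ (n : ℝ) :=
    tendsto_natCast_atTop_atTop.eventually_ge_atTop _
  have ev7 : ∀ᶠ n : ℕ in atTop, 1 / e ≤ Real.log (n : ℝ) := hlogtop.eventually_ge_atTop _
  have evall := ((ev1.and ev2).and (ev3.and (ev4.and ev7))).and (eventually_ge_atTop N1)
  obtain ⟨M0, hM0⟩ := eventually_atTop.1 evall
  have hM0' := hM0 M0 le_rfl
  have hηM0 : 1 ≤ η * M0 := by
    have h1 := hM0'.1.2.2.1
    rw [div_le_iff₀ hη] at h1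
    linarith
  -- notation
  set M : ℕ → ℕ := sq_LGW η M0 with hMdef
  have hMge : ∀ i, M0 ≤ M i := fun i => (sq_ge_LGW η M0 hη hηM0 i).1
  have hMstep : ∀ i, M i + 1 ≤ M (i + 1) := fun i => (sq_ge_LGW η M0 hη hηM0 i).2
  have hMrec : ∀ i, M (i + 1) = ⌊(1 + η) * (M i : ℝ)⌋₊ := fun i => rfl
  have hlog1 : ∀ i, 1 ≤ Real.log (M i : ℝ) := fun i => (hM0 (M i) (hMge i)).1.1.1
  have hrp : ∀ i, (2 : ℝ) ≤ (M i : ℝ) ^ e := fun i => (hM0 (M i) (hMge i)).1.2.1
  have hN1i : ∀ i, N1 ≤ M i := fun i => (hM0 (M i) (hMge i)).2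
  have hMpos : ∀ i, 0 < (M i : ℝ) := by
    intro i
    rcases Nat.eq_zero_or_pos (M i) with h | h
    · exfalso
      have h1 := hlog1 i
      rw [h] at h1
      simp at h1
      linarith
    · exact_mod_cast h
  have hal0 : ∀ i, 0 ≤ al p (M i) := by
    intro i
    have h1 := al_lower_LGW p e (M i) hβ he0 (by linarith [hlog1 i])
    have h2 := (hM0 (M i) (hMge i)).1.1.2
    rw [div_le_iff₀ hc2] at h2
    rw [← hC1] at h1
    linarith
  have hMle : ∀ i, (M (i + 1) : ℝ) ≤ (1 + η) * M i := by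
    intro i
    rw [hMrec]
    exact Nat.floor_le (by have := hMpos i; positivity)
  have hstep : ∀ i, al p (M i) ≤ al p (M (i + 1)) ∧ al p (M (i + 1)) ≤ al p (M i) + ξ := by
    intro i
    refine al_step_LGW p η (M i : ℝ) (M (i + 1) : ℝ) hβ hη (hMpos i) (hlog1 i) ?_ (hMle i)
    have := hMstep i
    exact_mod_cast (by omega : M i ≤ M (i + 1))
  have hlogI : ∀ i, 1 / e ≤ Real.log (M i : ℝ) := fun i => (hM0 (M i) (hMge i)).1.2.2.2
  -- contribution of a window
  set K : ℝ := η / ((1 + η) * ξ) with hK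
  have hK0 : 0 < K := by positivity
  have hwin : ∀ i, K * (Ph_LGW (e + ξ) (y + ξ) (al p (M (i + 1))) -
      Ph_LGW (e + ξ) (y + ξ) (al p (M i))) ≤
      ∑ n ∈ (Ioc (M i) (M (i + 1))).filter (fun n : ℕ => (n : ℝ) ^ x ≤ sn p n), 1 / (n : ℝ) := by
    intro i
    set T : ℝ := ∑ n ∈ (Ioc (M i) (M (i + 1))).filter (fun n : ℕ => (n : ℝ) ^ x ≤ sn p n),
      1 / (n : ℝ) with hT
    have hT0 : 0 ≤ T := by
      apply sum_nonneg
      intro n _
      positivity
    have hstp := Ph_step_LGW e ξ y (al p (M i)) (al p (M (i + 1))) ((1 + η) / η * T) he0 hξ0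
      (by linarith) (by rw [hy]; linarith) (by linarith) (hstep i).1 (hstep i).2
      (by positivity) (by
        intro h1 h2
        have h3 := window_LGW p x e η N1 (M i) hβ hx0 he0 hη hη1 hN1 (hN1i i) (hlog1 i)
          (by linarith) (hrp i) (hal0 i) h1 h2
        rw [← hMrec, ← hT] at h3
        have h4 : (1 - Int.fract (al p (M i)) - e) = (1 + η) / η *
            ((1 - Int.fract (al p (M i)) - e) * (η / (1 + η))) := by
          field_simp
        rw [h4]
        apply mul_le_mul_of_nonneg_left h3 (by positivity))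
    calc K * (Ph_LGW (e + ξ) (y + ξ) (al p (M (i + 1))) -
        Ph_LGW (e + ξ) (y + ξ) (al p (M i))) ≤ K * (ξ * ((1 + η) / η * T)) :=
          mul_le_mul_of_nonneg_left hstp hK0.le
      _ = T := by
        rw [hK]
        field_simp

  set Sg : ℕ → ℕ → ℝ := fun I N => ∑ n ∈ (Ioc (M I) N).filter (fun n : ℕ => (n : ℝ) ^ x ≤ sn p n),
    1 / (n : ℝ) with hSg
  have hind : ∀ I k, K * (Ph_LGW (e + ξ) (y + ξ) (al p (M (I + k))) -
      Ph_LGW (e + ξ) (y + ξ) (al p (M I))) ≤ Sg I (M (I + k)) := by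
    intro I k
    induction k with
    | zero =>
      rw [Nat.add_zero, sub_self, mul_zero]
      apply sum_nonneg
      intro n _
      positivity
    | succ k ih =>
      have hIk : M I ≤ M (I + k) := by
        clear ih
        induction k with
        | zero => exact le_rfl
        | succ k ihk =>
          have := hMstep (I + k)
          rw [← Nat.add_assoc]
          omega
      have hstp := hMstep (I + k)
      have hdisj : Disjoint (Ioc (M I) (M (I + k))) (Ioc (M (I + k)) (M (I + k + 1))) := by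
        rw [Finset.disjoint_left]
        intro n hn hn'
        rw [mem_Ioc] at hn hn'
        omega
      have hun : Ioc (M I) (M (I + k + 1)) =
          Ioc (M I) (M (I + k)) ∪ Ioc (M (I + k)) (M (I + k + 1)) := by
        ext n
        rw [mem_union, mem_Ioc, mem_Ioc, mem_Ioc]
        omega
      have hsplit : Sg I (M (I + k + 1)) = Sg I (M (I + k)) +
          ∑ n ∈ (Ioc (M (I + k)) (M (I + k + 1))).filter (fun n : ℕ => (n : ℝ) ^ x ≤ sn p n),
            1 / (n : ℝ) := by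
        rw [hSg]
        show ∑ n ∈ (Ioc (M I) (M (I + k + 1))).filter (fun n : ℕ => (n : ℝ) ^ x ≤ sn p n),
          1 / (n : ℝ) = _
        rw [hun, filter_union, sum_union]
        exact disjoint_filter_filter hdisj
      rw [← Nat.add_assoc, hsplit]
      have := hwin (I + k)
      have h6 : K * (Ph_LGW (e + ξ) (y + ξ) (al p (M (I + k + 1))) -
          Ph_LGW (e + ξ) (y + ξ) (al p (M I))) =
          K * (Ph_LGW (e + ξ) (y + ξ) (al p (M (I + k))) - Ph_LGW (e + ξ) (y + ξ) (al p (M I))) +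
          K * (Ph_LGW (e + ξ) (y + ξ) (al p (M (I + k + 1))) -
            Ph_LGW (e + ξ) (y + ξ) (al p (M (I + k)))) := by ring
      rw [h6]
      linarith
  have hMmono : StrictMono M := strictMono_nat_of_lt_succ (fun i => by have := hMstep i; omega)
  -- final estimate
  refine ⟨Real.exp (4 / ε + 2 + 2 * bb p), M0, ?_⟩
  intro C N hC hN
  have hC0 : 0 < C := lt_of_lt_of_le (Real.exp_pos _) hC
  have hlogC : 4 / ε + 2 + 2 * bb p ≤ Real.log C := by
    rw [← Real.log_exp (4 / ε + 2 + 2 * bb p)]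
    exact Real.log_le_log (Real.exp_pos _) hC
  have hε4 : 0 < 4 / ε := by positivity
  have hC2 : 2 ≤ C := by
    have h1 : (2 : ℝ) + 1 ≤ Real.exp 2 := Real.add_one_le_exp 2
    have h2 : Real.exp 2 ≤ Real.exp (4 / ε + 2 + 2 * bb p) := Real.exp_le_exp.2 (by linarith)
    linarith
  obtain ⟨i0, hi1, hi2⟩ := sq_find_LGW η M0 hη hηM0 N hN
  have hNpos : 0 < (N : ℝ) := by
    have h1 := hMpos i0
    have h2 : (M i0 : ℝ) ≤ N := by exact_mod_cast hi1
    linarith
  have hNCN : N ≤ ⌊C * (N : ℝ)⌋₊ :=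
    Nat.le_floor (le_mul_of_one_le_left hNpos.le (by linarith))
  obtain ⟨J, hJ1, hJ2⟩ := sq_find_LGW η M0 hη hηM0 ⌊C * (N : ℝ)⌋₊ (le_trans hN hNCN)
  set I : ℕ := i0 + 1 with hI
  have hMI : (M I : ℝ) ≤ (1 + η) * N := by
    have h1 := hMle i0
    have h2 : (M i0 : ℝ) ≤ N := by exact_mod_cast hi1
    exact le_trans h1 (mul_le_mul_of_nonneg_left h2 (by linarith))
  have hMIJ : M I ≤ ⌊C * (N : ℝ)⌋₊ :=
    Nat.le_floor (le_trans hMI (mul_le_mul_of_nonneg_right (by linarith) hNpos.le))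
  have hIJ : I ≤ J := by
    by_contra hcon
    push Not at hcon
    have h1 : M (J + 1) ≤ M I := hMmono.monotone hcon
    have h2 : ⌊C * (N : ℝ)⌋₊ < M (J + 1) := hJ2
    omega
  obtain ⟨k, hk⟩ := Nat.exists_eq_add_of_le hIJ
  have hMJ : C * N ≤ (1 + η) * M J := by
    have h1 : C * (N : ℝ) < M (J + 1) := (Nat.floor_lt (by positivity)).1 hJ2
    linarith [hMle J]
  have hdl : Real.log C - 2 ≤ Real.log (M J) - Real.log (M I) := by
    have h1 : Real.log (C * N) ≤ Real.log ((1 + η) * M J) :=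
      Real.log_le_log (by positivity) hMJ
    have h2 : Real.log (M I) ≤ Real.log ((1 + η) * N) := Real.log_le_log (hMpos I) hMI
    rw [Real.log_mul hC0.ne' hNpos.ne', Real.log_mul (by linarith) (hMpos J).ne'] at h1
    rw [Real.log_mul (by linarith) hNpos.ne'] at h2
    linarith
  have hMIJ' : (M I : ℝ) ≤ M J := by exact_mod_cast hMmono.monotone hIJ
  have hald := al_diff_LGW p e (M I) (M J) hβ he0 (hMpos I) (hlogI I) hMIJ'
  have hPl := Ph_lower_LGW (e + ξ) (y + ξ) (al p (M J)) hs.le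
  have hPu := Ph_upper_LGW (e + ξ) (y + ξ) (al p (M I))
  rw [← hA] at hPl hPu
  have hbr : (2 / bb p) * (1 - e) * (Real.log C - 2) * A - 2 * A ≤
      Ph_LGW (e + ξ) (y + ξ) (al p (M J)) - Ph_LGW (e + ξ) (y + ξ) (al p (M I)) := by
    have h1 : (2 / bb p) * (1 - e) * (Real.log C - 2) ≤ al p (M J) - al p (M I) :=
      le_trans (mul_le_mul_of_nonneg_left hdl hc2.le) hald
    have h2 := mul_le_mul_of_nonneg_right h1 hA0.le
    linarith
  have hbr0 : 0 ≤ (2 / bb p) * (1 - e) * (Real.log C - 2) * A - 2 * A := by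
    have h1 : 2 ≤ (2 / bb p) * (1 - e) * (Real.log C - 2) := by
      have h2 : (2 / bb p) * (1 - e) * (2 * bb p) ≤ (2 / bb p) * (1 - e) * (Real.log C - 2) :=
        mul_le_mul_of_nonneg_left (by linarith) hc2.le
      have h3 : (2 / bb p) * (1 - e) * (2 * bb p) = 4 * (1 - e) := by
        field_simp
        ring
      linarith
    have h4 := mul_le_mul_of_nonneg_right h1 hA0.le
    linarith
  have hKge : (bb p / 2) * (1 - e) ≤ K := by
    rw [hK, le_div_iff₀ (by positivity)]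
    have h1 : (bb p / 2) * ξ ≤ η := by linarith
    have h2 : (1 - e) * (1 + η) ≤ 1 := by
      have := mul_nonneg he0.le hη.le
      linarith
    calc bb p / 2 * (1 - e) * ((1 + η) * ξ) = (bb p / 2 * ξ) * ((1 - e) * (1 + η)) := by ring
      _ ≤ η * 1 := by
        apply mul_le_mul h1 h2 _ hη.le
        apply mul_nonneg <;> linarith
      _ = η := mul_one η
  have hmono : Sg I (M J) ≤
      ∑ n ∈ (Ioc N ⌊C * N⌋₊).filter (fun n : ℕ => (n : ℝ) ^ x ≤ sn p n), 1 / (n : ℝ) := by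
    rw [hSg]
    apply sum_le_sum_of_subset_of_nonneg
    · apply filter_subset_filter
      exact Ioc_subset_Ioc hi2.le hJ1
    · intro n _ _
      positivity
  have hmain : (bb p / 2) * (1 - e) * ((2 / bb p) * (1 - e) * (Real.log C - 2) * A - 2 * A) ≤
      ∑ n ∈ (Ioc N ⌊C * N⌋₊).filter (fun n : ℕ => (n : ℝ) ^ x ≤ sn p n), 1 / (n : ℝ) := by
    have h1 := hind I k
    rw [← hk] at h1
    calc (bb p / 2) * (1 - e) * ((2 / bb p) * (1 - e) * (Real.log C - 2) * A - 2 * A) ≤
        K * ((2 / bb p) * (1 - e) * (Real.log C - 2) * A - 2 * A) :=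
          mul_le_mul_of_nonneg_right hKge hbr0
      _ ≤ K * (Ph_LGW (e + ξ) (y + ξ) (al p (M J)) - Ph_LGW (e + ξ) (y + ξ) (al p (M I))) :=
          mul_le_mul_of_nonneg_left hbr hK0.le
      _ ≤ Sg I (M J) := h1
      _ ≤ _ := hmono
  refine le_trans ?_ hmain
  have hexp2 : (bb p / 2) * (1 - e) * ((2 / bb p) * (1 - e) * (Real.log C - 2) * A - 2 * A) =
      A * (1 - e) ^ 2 * Real.log C - 2 * (A * (1 - e) ^ 2) - bb p * (1 - e) * A := by
    field_simp
  rw [hexp2]
  have hAe : (1 - 2 * x) ^ 2 / 2 - ε / 2 ≤ A * (1 - e) ^ 2 := by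
    have g1 : A * (1 - e) ^ 2 = A - 2 * (e * A) + A * e ^ 2 := by ring
    have g2 : 0 ≤ A * e ^ 2 := by positivity
    have g3 : e * A ≤ e * (1 / 2) := mul_le_mul_of_nonneg_left hA1 he0.le
    rw [g1]
    linarith
  have hlC0 : 0 ≤ Real.log C := by linarith
  have h8 : ((1 - 2 * x) ^ 2 / 2 - ε / 2) * Real.log C ≤ A * (1 - e) ^ 2 * Real.log C :=
    mul_le_mul_of_nonneg_right hAe hlC0
  have h9 : A * (1 - e) ^ 2 ≤ 1 / 2 := by
    have h1 : (1 - e) ^ 2 ≤ 1 := pow_le_one₀ (by linarith) (by linarith)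
    calc A * (1 - e) ^ 2 ≤ 1 / 2 * 1 := mul_le_mul hA1 h1 (by positivity) (by norm_num)
      _ = 1 / 2 := by norm_num
  have h10 : bb p * (1 - e) * A ≤ 1 := by
    have h11 : bb p * (1 - e) ≤ 2 * 1 := by
      apply mul_le_mul hβ2 (by linarith) (by linarith) (by norm_num)
    calc bb p * (1 - e) * A ≤ 2 * 1 * (1 / 2) := mul_le_mul h11 hA1 hA0.le (by norm_num)
      _ = 1 := by norm_num
  have h13 : 2 ≤ ε / 2 * Real.log C := by
    have h14 : ε / 2 * (4 / ε) ≤ ε / 2 * Real.log C :=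
      mul_le_mul_of_nonneg_left (by linarith) (by linarith)
    have h15 : ε / 2 * (4 / ε) = 2 := by field_simp; norm_num
    linarith
  calc ((1 - 2 * x) ^ 2 / 2 - ε) * Real.log C =
      ((1 - 2 * x) ^ 2 / 2 - ε / 2) * Real.log C - ε / 2 * Real.log C := by ring
    _ ≤ A * (1 - e) ^ 2 * Real.log C - 2 * (A * (1 - e) ^ 2) - bb p * (1 - e) * A := by linarith

end Pool.Agent.Helper82.CN.LGW
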