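import Pool.Agent.Helper82.CN.St

set_option autoImplicit false

namespace Pool.Agent.Helper82.CN

open Finset

private lemma card_bal_ne (n k : ℕ) (c : Fin n → Fin k) (hc : c ∈ Bal n k) :
    (0 : ℝ) < ((Bal n k).card : ℝ) := by
  exact_mod_cast Finset.card_pos.mpr ⟨c, hc⟩

theorem tOVA : StOvp → StOvu → StOvg → StOva := by
  intro hP hU hG p n k Y h0 h1 hk hkn hY hT
  have hB : (0 : ℝ) < 1 / (1 - p) := by
    have : (0 : ℝ) < 1 - p := by linarith
    positivity
  set R := ((n : ℝ) + 1) ^ (n / k) * Y with hR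
  have hR0 : 0 ≤ R := by positivity
  have hG' := hG p n k Y h0 h1 hk hkn hY hT
  have hfac : (0 : ℝ) < (n.factorial : ℝ) := by exact_mod_cast n.factorial_pos
  have key : ∀ c ∈ Bal n k, ∑ c' ∈ Bal n k, (1 / (1 - p)) ^ ov c c' ≤
      ((Bal n k).card : ℝ) * R := by
    intro c hc
    have e1 := hP n k c (fun c' => (1 / (1 - p)) ^ ov c c') hc
    have e2 := hU p n k c h0 h1 hc
    have hcard := card_bal_ne n k c hc
    have e3 : (n.factorial : ℝ) * ∑ c' ∈ Bal n k, (1 / (1 - p)) ^ ov c c' ≤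
        (n.factorial : ℝ) * (((Bal n k).card : ℝ) * R) := by
      rw [e1]
      calc ((Bal n k).card : ℝ) * ∑ π : Equiv.Perm (Fin n), (1 / (1 - p)) ^ ov c (c ∘ π)
          ≤ ((Bal n k).card : ℝ) * (((n : ℝ) + 1) ^ (n / k) * (n.factorial * Y)) :=
            mul_le_mul_of_nonneg_left (e2.trans hG') hcard.le
        _ = _ := by rw [hR]; ring
    exact le_of_mul_le_mul_left e3 hfac
  unfold AA
  by_cases hne : (Bal n k).Nonempty
  · obtain ⟨c0, hc0⟩ := hne
    have hcard := card_bal_ne n k c0 hc0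
    rw [div_le_iff₀ (by positivity)]
    calc ∑ c ∈ Bal n k, ∑ c' ∈ Bal n k, (1 / (1 - p)) ^ ov c c'
        ≤ ∑ _c ∈ Bal n k, ((Bal n k).card : ℝ) * R := Finset.sum_le_sum key
      _ = R * ((Bal n k).card : ℝ) ^ 2 := by
          rw [Finset.sum_const, nsmul_eq_mul]; ring
  · rw [Finset.not_nonempty_iff_eq_empty] at hne
    rw [hne]; simpa using hR0

end Pool.Agent.Helper82.CN
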