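import Pool.Agent.Helper4.CN.M_OVG
import Pool.Agent.Helper6.CN.M_RHO
import Pool.Agent.Helper8.CN.M_LIP
import Pool.Agent.Helper14.CN.M_MKB
import Pool.Agent.Helper14.CN.M_WIN
import Pool.Agent.Helper18.CN.M_TMB
import Pool.Agent.Helper26.CN.M_WTH
import Pool.Agent.Helper32.CN.M_PLA
import Pool.Agent.Helper37.CN.M_VAR
import Pool.Agent.Helper40.CN.M_MCG
import Pool.Agent.Helper46.CN.M_INC
import Pool.Agent.Helper47.CN.M_LOW
import Pool.Agent.Helper62.CN.M_FMB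
import Pool.Agent.Helper71.CN.M_OVC
import Pool.Agent.Helper71.CN.M_UPP
import Pool.Agent.Helper80.CN.M_OVP
import Pool.Agent.Helper82.CN.M_COV
import Pool.Agent.Helper82.CN.M_LGW
import Pool.Agent.Helper82.CN.M_OVA
import Pool.Agent.Helper85.CN.M_HVB
import Pool.Agent.Helper87.CN.M_BRG
import Pool.Agent.Helper88.CN.M_OVU
import Pool.Agent.Helper89.CN.M_MCD
import Pool.Agent.Helper96.CN.M_SCM

/-!
# Project CN (MP_e12aa9_pr): assembly of the modules
-/

set_option autoImplicit false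

namespace Pool.Agent.Helper82.CN

theorem aBRG : StBrg := Pool.Agent.Helper87.CN.tBRG
theorem aMCD : StMcd := Pool.Agent.Helper89.CN.tMCD Pool.Agent.Helper40.CN.tMCG
theorem aCOV : StCov := tCOV Pool.Agent.Helper32.CN.tPLA Pool.Agent.Helper37.CN.tVAR
theorem aRHO : StRho :=
  Pool.Agent.Helper6.CN.tRHO Pool.Agent.Helper14.CN.tMKB Pool.Agent.Helper85.CN.tHVB
theorem aINC : StInc := Pool.Agent.Helper46.CN.tINC aCOV aRHO
theorem aOVA : StOva :=
  tOVA Pool.Agent.Helper80.CN.tOVP (Pool.Agent.Helper88.CN.tOVU Pool.Agent.Helper71.CN.tOVC)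
    Pool.Agent.Helper4.CN.tOVG
theorem aTMB : StTmb :=
  Pool.Agent.Helper18.CN.tTMB Pool.Agent.Helper14.CN.tMKB Pool.Agent.Helper85.CN.tHVB
theorem aLOW : StLow := Pool.Agent.Helper47.CN.tLOW Pool.Agent.Helper62.CN.tFMB
theorem aUPP : StUpp := Pool.Agent.Helper71.CN.tUPP Pool.Agent.Helper96.CN.tSCM aOVA aTMB aMCD
theorem aWTH : StWth :=
  Pool.Agent.Helper26.CN.tWTH aINC Pool.Agent.Helper8.CN.tLIP aMCD aLOW aUPP
    Pool.Agent.Helper14.CN.tWIN
theorem aLGW : LGW.StLgw := LGW.tLGW aWTH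

end Pool.Agent.Helper82.CN
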