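import Mathlib

/-!
# Project CN (MP_e12aa9_pr): the fluctuations of the chromatic number of `G(n,p)` for a positive proportion of `n`

Random graphs are encoded by independent bits on `Sym2 V` (the diagonal bits are ignored).
-/

set_option autoImplicit false

namespace Pool.Agent.Helper82.CN

open Finset

/-- weight of one bit -/
noncomputable def bw (p : ℝ) (b : Bool) : ℝ := if b = true then p else 1 - p

/-- expectation for independent Bernoulli(`p`) bits -/
noncomputable def EE (p : ℝ) {ι : Type} [Fintype ι] [DecidableEq ι] (F : (ι → Bool) → ℝ) : ℝ :=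
  ∑ ω : ι → Bool, (∏ i, bw p (ω i)) * F ω

/-- the graph of a bit function -/
def gr {V : Type} (ω : Sym2 V → Bool) : SimpleGraph V where
  Adj u v := u ≠ v ∧ ω s(u, v) = true
  symm := by
    constructor
    intro u v h
    exact ⟨h.1.symm, by rw [Sym2.eq_swap]; exact h.2⟩
  loopless := by
    constructor
    intro u h
    exact h.1 rfl

/-- chromatic number, as a real number -/
noncomputable def ch {V : Type} (G : SimpleGraph V) : ℝ := (G.chromaticNumber.toNat : ℝ)

/-- the expected chromatic number of `G(n,p)` -/
noncomputable def fn (p : ℝ) (n : ℕ) : ℝ :=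
  EE p (fun ω : Sym2 (Fin n) → Bool => ch (gr ω))

/-- the variance of the chromatic number of `G(n,p)` -/
noncomputable def vn (p : ℝ) (n : ℕ) : ℝ :=
  EE p (fun ω : Sym2 (Fin n) → Bool => (ch (gr ω) - fn p n) ^ 2)

/-- its standard deviation -/
noncomputable def sn (p : ℝ) (n : ℕ) : ℝ := √(vn p n)

/-- expected number of independent sets of size `k` -/
noncomputable def Mk (p : ℝ) (n k : ℕ) : ℝ := (n.choose k : ℝ) * (1 - p) ^ (k.choose 2)

open Classical in
/-- the number of independent sets of size `k` -/
noncomputable def Xk (n k : ℕ) (ω : Sym2 (Fin n) → Bool) : ℝ :=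
  (((univ : Finset (Fin n)).powersetCard k).filter
    (fun S => ∀ u ∈ S, ∀ v ∈ S, u ≠ v → ω s(u, v) = false)).card

end Pool.Agent.Helper82.CN
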