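import Pool.Agent.Helper82.CN.Defs

/-!
# Project CN: library for `EE`
-/

set_option autoImplicit false

namespace Pool.Agent.Helper82.CN

open Finset

variable {ι κ : Type} [Fintype ι] [DecidableEq ι] [Fintype κ] [DecidableEq κ]

lemma bw_nonneg {p : ℝ} (h0 : 0 ≤ p) (h1 : p ≤ 1) (b : Bool) : 0 ≤ bw p b := by
  unfold bw; split_ifs <;> linarith

lemma bw_sum (p : ℝ) : ∑ b : Bool, bw p b = 1 := by
  simp [bw]

/-- weights add up to 1 -/
lemma wt_sum (p : ℝ) : ∑ ω : ι → Bool, ∏ i, bw p (ω i) = 1 := by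
  have h := (Finset.prod_univ_sum (fun _ : ι => (univ : Finset Bool)) (fun _ b => bw p b)).symm
  simp only [Fintype.piFinset_univ] at h
  rw [h]
  have h2 : ∀ i : ι, ∑ j : Bool, bw p j = 1 := fun _ => bw_sum p
  rw [Finset.prod_congr rfl (fun i _ => h2 i)]
  simp

omit [DecidableEq ι] in
lemma wt_nonneg {p : ℝ} (h0 : 0 ≤ p) (h1 : p ≤ 1) (ω : ι → Bool) : 0 ≤ ∏ i, bw p (ω i) :=
  Finset.prod_nonneg fun i _ => bw_nonneg h0 h1 (ω i)

lemma EE_const (p c : ℝ) : EE p (fun _ : ι → Bool => c) = c := by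
  unfold EE; rw [← Finset.sum_mul, wt_sum, one_mul]

lemma EE_add (p : ℝ) (F G : (ι → Bool) → ℝ) : EE p (fun ω => F ω + G ω) = EE p F + EE p G := by
  unfold EE; rw [← Finset.sum_add_distrib]; exact Finset.sum_congr rfl fun _ _ => by ring

lemma EE_sub (p : ℝ) (F G : (ι → Bool) → ℝ) : EE p (fun ω => F ω - G ω) = EE p F - EE p G := by
  unfold EE; rw [← Finset.sum_sub_distrib]; exact Finset.sum_congr rfl fun _ _ => by ring

lemma EE_mul_left (p c : ℝ) (F : (ι → Bool) → ℝ) : EE p (fun ω => c * F ω) = c * EE p F := by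
  unfold EE; rw [Finset.mul_sum]; exact Finset.sum_congr rfl fun _ _ => by ring

lemma EE_mul_right (p c : ℝ) (F : (ι → Bool) → ℝ) : EE p (fun ω => F ω * c) = EE p F * c := by
  unfold EE; rw [Finset.sum_mul]; exact Finset.sum_congr rfl fun _ _ => by ring

lemma EE_sum {α : Type} (s : Finset α) (p : ℝ) (F : α → (ι → Bool) → ℝ) :
    EE p (fun ω => ∑ a ∈ s, F a ω) = ∑ a ∈ s, EE p (F a) := by
  unfold EE; rw [Finset.sum_comm]
  exact Finset.sum_congr rfl fun _ _ => by rw [Finset.mul_sum]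

lemma EE_mono {p : ℝ} (h0 : 0 ≤ p) (h1 : p ≤ 1) {F G : (ι → Bool) → ℝ} (h : ∀ ω, F ω ≤ G ω) :
    EE p F ≤ EE p G :=
  Finset.sum_le_sum fun ω _ => mul_le_mul_of_nonneg_left (h ω) (wt_nonneg h0 h1 ω)

lemma EE_nonneg {p : ℝ} (h0 : 0 ≤ p) (h1 : p ≤ 1) {F : (ι → Bool) → ℝ} (h : ∀ ω, 0 ≤ F ω) :
    0 ≤ EE p F :=
  Finset.sum_nonneg fun ω _ => mul_nonneg (wt_nonneg h0 h1 ω) (h ω)

/-- Cauchy-Schwarz -/
lemma EE_cs {p : ℝ} (h0 : 0 ≤ p) (h1 : p ≤ 1) (F G : (ι → Bool) → ℝ) :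
    (EE p (fun ω => F ω * G ω)) ^ 2 ≤ EE p (fun ω => F ω ^ 2) * EE p (fun ω => G ω ^ 2) := by
  unfold EE
  have h := Finset.sum_mul_sq_le_sq_mul_sq (univ : Finset (ι → Bool))
    (fun ω => √(∏ i, bw p (ω i)) * F ω) (fun ω => √(∏ i, bw p (ω i)) * G ω)
  have e1 : ∀ ω : ι → Bool, √(∏ i, bw p (ω i)) * F ω * (√(∏ i, bw p (ω i)) * G ω) =
      (∏ i, bw p (ω i)) * (F ω * G ω) := by
    intro ω
    have := Real.mul_self_sqrt (wt_nonneg h0 h1 ω)
    calc _ = (√(∏ i, bw p (ω i)) * √(∏ i, bw p (ω i))) * (F ω * G ω) := by ring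
      _ = _ := by rw [this]
  have e2 : ∀ (H : (ι → Bool) → ℝ) (ω : ι → Bool), (√(∏ i, bw p (ω i)) * H ω) ^ 2 =
      (∏ i, bw p (ω i)) * (H ω) ^ 2 := by
    intro H ω
    rw [mul_pow, Real.sq_sqrt (wt_nonneg h0 h1 ω)]
  simp only [e1, e2] at h
  exact h

/-- reindexing -/
lemma EE_equiv (p : ℝ) (e : ι ≃ κ) (F : (ι → Bool) → ℝ) :
    EE p (fun ω : κ → Bool => F (fun i => ω (e i))) = EE p F := by
  unfold EE
  refine Fintype.sum_equiv (Equiv.arrowCongr e (Equiv.refl Bool)).symm _ _ fun ω => ?_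
  have h1 : ∏ i, bw p (((Equiv.arrowCongr e (Equiv.refl Bool)).symm ω) i) = ∏ j, bw p (ω j) :=
    Fintype.prod_equiv e _ _ fun i => rfl
  rw [h1]; rfl

/-- Fubini: the bits with `P` and the bits without `P` -/
lemma EE_split (p : ℝ) (P : ι → Prop) [DecidablePred P] (F : (ι → Bool) → ℝ) :
    EE p F = EE p (fun ω₁ : {i // P i} → Bool => EE p (fun ω₂ : {i // ¬ P i} → Bool =>
      F ((Equiv.piEquivPiSubtypeProd P (fun _ => Bool)).symm (ω₁, ω₂)))) := by
  unfold EE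
  rw [← (Equiv.piEquivPiSubtypeProd P (fun _ : ι => Bool)).symm.sum_comp, Fintype.sum_prod_type]
  refine Finset.sum_congr rfl fun ω₁ _ => ?_
  rw [Finset.mul_sum]
  refine Finset.sum_congr rfl fun ω₂ _ => ?_
  rw [← mul_assoc]
  congr 1
  rw [← Fintype.prod_subtype_mul_prod_subtype P
    (fun i => bw p ((Equiv.piEquivPiSubtypeProd P (fun _ : ι => Bool)).symm (ω₁, ω₂) i))]
  congr 1
  · refine Finset.prod_congr rfl fun i _ => ?_
    have : (Equiv.piEquivPiSubtypeProd P (fun _ : ι => Bool)).symm (ω₁, ω₂) i = ω₁ i := by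
      simp [Equiv.piEquivPiSubtypeProd, i.2]
    rw [this]
  · refine Finset.prod_congr rfl fun i _ => ?_
    have : (Equiv.piEquivPiSubtypeProd P (fun _ : ι => Bool)).symm (ω₁, ω₂) i = ω₂ i := by
      simp [Equiv.piEquivPiSubtypeProd, i.2]
    rw [this]

omit [Fintype ι] [DecidableEq ι] in
/-- the value of the glued bit function -/
lemma glue_pos (P : ι → Prop) [DecidablePred P] (ω₁ : {i // P i} → Bool)
    (ω₂ : {i // ¬ P i} → Bool) (i : ι) (h : P i) :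
    (Equiv.piEquivPiSubtypeProd P (fun _ : ι => Bool)).symm (ω₁, ω₂) i = ω₁ ⟨i, h⟩ := by
  simp [Equiv.piEquivPiSubtypeProd, h]

omit [Fintype ι] [DecidableEq ι] in
lemma glue_neg (P : ι → Prop) [DecidablePred P] (ω₁ : {i // P i} → Bool)
    (ω₂ : {i // ¬ P i} → Bool) (i : ι) (h : ¬ P i) :
    (Equiv.piEquivPiSubtypeProd P (fun _ : ι => Bool)).symm (ω₁, ω₂) i = ω₂ ⟨i, h⟩ := by
  simp [Equiv.piEquivPiSubtypeProd, h]

/-- independence: `F` uses only bits with `P`, `G` only bits without `P` -/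
lemma EE_indep (p : ℝ) (P : ι → Prop) [DecidablePred P] (F G : (ι → Bool) → ℝ)
    (hF : ∀ ω ω' : ι → Bool, (∀ i, P i → ω i = ω' i) → F ω = F ω')
    (hG : ∀ ω ω' : ι → Bool, (∀ i, ¬ P i → ω i = ω' i) → G ω = G ω') :
    EE p (fun ω => F ω * G ω) = EE p F * EE p G := by
  set g := (Equiv.piEquivPiSubtypeProd P (fun _ : ι => Bool)).symm with hg
  have hF' : ∀ ω₁ ω₂, F (g (ω₁, ω₂)) = F (g (ω₁, fun _ => false)) := by
    intro ω₁ ω₂; apply hF; intro i hi
    rw [hg, glue_pos P _ _ i hi, glue_pos P _ _ i hi]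
  have hG' : ∀ ω₁ ω₂, G (g (ω₁, ω₂)) = G (g (fun _ => false, ω₂)) := by
    intro ω₁ ω₂; apply hG; intro i hi
    rw [hg, glue_neg P _ _ i hi, glue_neg P _ _ i hi]
  rw [EE_split p P, EE_split p P F, EE_split p P G]
  simp only [← hg]
  simp_rw [hF' _ _, hG' _ _]
  simp only [EE_const, EE_mul_left, EE_mul_right]

/-- the instances do not matter -/
lemma EE_inst (p : ℝ) (α : Type) (i1 i2 : Fintype α) (d1 d2 : DecidableEq α) (F : (α → Bool) → ℝ) :
    @EE p α i1 d1 F = @EE p α i2 d2 F := by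
  cases Subsingleton.elim i1 i2
  cases Subsingleton.elim d1 d2
  rfl

/-- marginals: an injective family of coordinates -/
lemma EE_marg (p : ℝ) (e : κ → ι) (he : Function.Injective e) (F : (κ → Bool) → ℝ) :
    EE p (fun ω : ι → Bool => F (fun j => ω (e j))) = EE p F := by
  classical
  have h1 := EE_split p (fun i => i ∈ Set.range e)
    (fun ω : ι → Bool => F (fun j => ω (e j)))
  rw [h1]
  have h2 : ∀ (ω₁ : {i // i ∈ Set.range e} → Bool) (ω₂ : {i // ¬ i ∈ Set.range e} → Bool),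
      (fun j => (Equiv.piEquivPiSubtypeProd (fun i => i ∈ Set.range e)
        (fun _ : ι => Bool)).symm (ω₁, ω₂) (e j)) =
      fun j => ω₁ ((Equiv.ofInjective e he) j) := by
    intro ω₁ ω₂; funext j
    rw [glue_pos (fun i => i ∈ Set.range e) _ _ (e j) ⟨j, rfl⟩]; rfl
  simp only [h2, EE_const]
  exact (EE_inst p _ _ _ _ _ _).trans (EE_equiv p (Equiv.ofInjective e he) F)

end Pool.Agent.Helper82.CN
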